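import Pool.Agent.Y834.UT.Hull

/-!
# Disjoint discs converging to a point have connected complement
-/

set_option autoImplicit false
set_option linter.all false

open Complex Filter Topology Set Metric Pool.Agent.Y834.UT

namespace Pool.Agent.V1173.Chordal

theorem annulus_preconn (c : ℂ) {r R : ℝ} (hr : 0 < r) :
    IsPreconnected {z : ℂ | r < ‖z - c‖ ∧ ‖z - c‖ < R} := by
  have h1 : {z : ℂ | r < ‖z - c‖ ∧ ‖z - c‖ < R} =
      (fun p : ℝ × ℝ => c + (p.1 : ℂ) * exp (p.2 * I)) '' (Ioo r R ×ˢ univ) := by
    ext z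
    constructor
    · rintro ⟨h1, h2⟩
      refine ⟨(‖z - c‖, arg (z - c)), ⟨⟨h1, h2⟩, mem_univ _⟩, ?_⟩
      simp only
      rw [norm_mul_exp_arg_mul_I]
      ring
    · rintro ⟨p, ⟨⟨h1, h2⟩, _⟩, rfl⟩
      have h0 : 0 < p.1 := hr.trans h1
      have h3 : ‖c + (p.1 : ℂ) * exp (p.2 * I) - c‖ = p.1 := by
        rw [add_sub_cancel_left, norm_mul, norm_exp_ofReal_mul_I, mul_one, norm_real,
          Real.norm_eq_abs, abs_of_pos h0]
      exact ⟨by rw [h3]; exact h1, by rw [h3]; exact h2⟩
  rw [h1]
  exact (isPreconnected_Ioo.prod isPreconnected_univ).image _ (by fun_prop)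

variable {P : ℂ} {c : ℕ → ℂ} {r : ℕ → ℝ}

theorem closed_family (hconv : ∀ ε : ℝ, 0 < ε → ∃ N : ℕ, ∀ n ≥ N, ∀ z ∈ closedBall (c n) (r n),
      ‖z - P‖ ≤ ε) (S : Set ℕ) : IsClosed ({P} ∪ ⋃ n ∈ S, closedBall (c n) (r n)) := by
  rw [← isOpen_compl_iff, isOpen_iff_mem_nhds]
  intro w hw
  have hwP : w ≠ P := fun h => hw (Or.inl h)
  have hρ : 0 < ‖w - P‖ := norm_pos_iff.2 (sub_ne_zero.2 hwP)
  obtain ⟨N, hN⟩ := hconv (‖w - P‖ / 2) (by positivity)
  have h1 : IsClosed (closedBall P (‖w - P‖ / 2) ∪
      ⋃ n ∈ S ∩ {n | n < N}, closedBall (c n) (r n)) := by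
    refine isClosed_closedBall.union (Set.Finite.isClosed_biUnion ?_ fun n _ => isClosed_closedBall)
    exact (Set.finite_lt_nat N).subset inter_subset_right
  have h2 : w ∉ (closedBall P (‖w - P‖ / 2) ∪
      ⋃ n ∈ S ∩ {n | n < N}, closedBall (c n) (r n)) := by
    rintro (h | h)
    · rw [mem_closedBall, dist_eq_norm] at h
      linarith
    · rw [mem_iUnion₂] at h
      obtain ⟨n, hn, h⟩ := h
      exact hw (Or.inr (mem_iUnion₂.2 ⟨n, hn.1, h⟩))
  refine Filter.mem_of_superset (h1.isOpen_compl.mem_nhds h2) ?_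
  intro z hz hz2
  apply hz
  rcases hz2 with h | h
  · left
    rw [mem_singleton_iff] at h
    rw [h]
    exact mem_closedBall_self (by positivity)
  · rw [mem_iUnion₂] at h
    obtain ⟨n, hn, h⟩ := h
    by_cases hnN : n < N
    · exact Or.inr (mem_iUnion₂.2 ⟨n, ⟨hn, hnN⟩, h⟩)
    · left
      rw [mem_closedBall, dist_eq_norm]
      exact hN n (not_lt.1 hnN) z h

/-- A bounded open set whose frontier lies in a closed convex set lies in that set. -/
theorem sub_of_frontier {V C : Set ℂ} (hVb : Bornology.IsBounded V)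
    (hC : Convex ℝ C) (hCc : IsClosed C) (hfr : frontier V ⊆ C) : V ⊆ C := by
  intro z hz
  by_contra hzC
  obtain ⟨g, u, h1, h2⟩ := RCLike.geometric_hahn_banach_closed_point (𝕜 := ℂ) hC hCc hzC
  have hg : ∀ w, g w = g 1 * w := by
    intro w
    have h3 : w = w • (1 : ℂ) := by rw [smul_eq_mul, mul_one]
    conv_lhs => rw [h3, map_smul]
    rw [smul_eq_mul, mul_comm]
  have hd : DiffContOnCl ℂ (fun w => exp (g 1 * w)) V := by
    have : Differentiable ℂ (fun w => exp (g 1 * w)) := by fun_prop
    exact this.diffContOnCl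
  have h3 := Complex.norm_le_of_forall_mem_frontier_norm_le hVb hd (C := Real.exp u) (fun w hw => by
    rw [Complex.norm_exp, ← hg]
    exact Real.exp_le_exp.2 (h1 w (hfr hw)).le) (subset_closure hz)
  rw [Complex.norm_exp, ← hg, Real.exp_le_exp] at h3
  have h4 : u < (g z).re := h2
  linarith

theorem conn_discs (hr : ∀ n, 0 < r n)
    (hdisj : ∀ i j, i ≠ j → Disjoint (closedBall (c i) (r i)) (closedBall (c j) (r j)))
    (hconv : ∀ ε : ℝ, 0 < ε → ∃ N : ℕ, ∀ n ≥ N, ∀ z ∈ closedBall (c n) (r n), ‖z - P‖ ≤ ε) :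
    IsCompact ({P} ∪ ⋃ n, closedBall (c n) (r n)) ∧
    IsConnected ({P} ∪ ⋃ n, closedBall (c n) (r n))ᶜ := by
  set L : Set ℂ := {P} ∪ ⋃ n, closedBall (c n) (r n) with hL
  have hLcl : IsClosed L := by
    have h1 := closed_family hconv univ
    rw [biUnion_univ] at h1
    exact h1
  have hLb : Bornology.IsBounded L := by
    obtain ⟨N, hN⟩ := hconv 1 one_pos
    have h1 : L ⊆ closedBall P 1 ∪ ⋃ n ∈ {n | n < N}, closedBall (c n) (r n) := by
      rintro z (h | h)
      · left
        rw [mem_singleton_iff] at h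
        rw [h]
        exact mem_closedBall_self (by positivity)
      · rw [mem_iUnion] at h
        obtain ⟨n, hn⟩ := h
        by_cases hnN : n < N
        · exact Or.inr (mem_iUnion₂.2 ⟨n, hnN, hn⟩)
        · left
          rw [mem_closedBall, dist_eq_norm]
          exact hN n (not_lt.1 hnN) z hn
    refine (isBounded_closedBall.union ?_).subset h1
    exact (Bornology.isBounded_biUnion (Set.finite_lt_nat N)).2 fun n _ => isBounded_closedBall
  have hLc : IsCompact L := Metric.isCompact_of_isClosed_isBounded hLcl hLb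
  refine ⟨hLc, ?_⟩
  have hull_eq : hull L = L := by
    refine Subset.antisymm (fun z hz => ?_) (subset_hull L)
    by_contra hzL
    have hVb : Bornology.IsBounded (connectedComponentIn Lᶜ z) := by
      rcases hz with h1 | h1
      · exact absurd h1 hzL
      · exact h1.2
    set V := connectedComponentIn Lᶜ z with hV
    have hVo : IsOpen V := hLcl.isOpen_compl.connectedComponentIn
    have hzV : z ∈ V := mem_connectedComponentIn hzL
    have hVL : V ⊆ Lᶜ := connectedComponentIn_subset _ _
    have hfr : frontier V ⊆ L := frontier_comp hLc z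
    set S : Set ℕ := {n | P ∉ closedBall (c n) (r n) ∧
      (frontier V ∩ closedBall (c n) (r n)).Nonempty} with hS
    -- neighbourhoods of isolated discs
    have hiso : ∀ n ∈ S, ∃ R, r n < R ∧ ball (c n) R ⊆ V ∪ closedBall (c n) (r n) := by
      intro n hn
      have h1 : IsClosed ({P} ∪ ⋃ m ∈ {m | m ≠ n}, closedBall (c m) (r m)) :=
        closed_family hconv {m | m ≠ n}
      have h2 : Disjoint (closedBall (c n) (r n))
          ({P} ∪ ⋃ m ∈ {m | m ≠ n}, closedBall (c m) (r m)) := by
        rw [Set.disjoint_left]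
        rintro w hw (h | h)
        · rw [mem_singleton_iff] at h
          rw [h] at hw
          exact hn.1 hw
        · rw [mem_iUnion₂] at h
          obtain ⟨m, hm, h⟩ := h
          exact Set.disjoint_left.1 (hdisj m n hm) h hw
      obtain ⟨δ, hδ, hδd⟩ := h2.exists_thickenings (isCompact_closedBall _ _) h1
      have h3 : ∀ w, ‖w - c n‖ < r n + δ → w ∉ closedBall (c n) (r n) → w ∉ L := by
        intro w hw hwn hwL
        have hw1 : w ∈ thickening δ (closedBall (c n) (r n)) := by
          rw [thickening_closedBall hδ (hr n).le, mem_ball, dist_eq_norm]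
          linarith
        have hw2 : w ∈ {P} ∪ ⋃ m ∈ {m | m ≠ n}, closedBall (c m) (r m) := by
          rcases hwL with h | h
          · exact Or.inl h
          · rw [mem_iUnion] at h
            obtain ⟨m, hm⟩ := h
            by_cases hmn : m = n
            · rw [hmn] at hm
              exact absurd hm hwn
            · exact Or.inr (mem_iUnion₂.2 ⟨m, hmn, hm⟩)
        exact Set.disjoint_left.1 hδd hw1 (self_subset_thickening hδ _ hw2)
      obtain ⟨w0, hw0f, hw0n⟩ := hn.2
      have hw0b : w0 ∈ ball (c n) (r n + δ) := by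
        rw [mem_ball]
        have := mem_closedBall.1 hw0n
        linarith
      obtain ⟨w1, hw1b, hw1V⟩ := mem_closure_iff.1 (frontier_subset_closure hw0f) _ isOpen_ball hw0b
      have hA := annulus_preconn (c n) (R := r n + δ) (hr n)
      have hAL : {w : ℂ | r n < ‖w - c n‖ ∧ ‖w - c n‖ < r n + δ} ⊆ Lᶜ := by
        rintro w ⟨hwa, hwb⟩
        refine h3 w hwb ?_
        rw [mem_closedBall, dist_eq_norm, not_le]
        exact hwa
      have hw1n : w1 ∉ closedBall (c n) (r n) := fun h =>
        hVL hw1V (Or.inr (mem_iUnion.2 ⟨n, h⟩))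
      have hw1A : w1 ∈ {w : ℂ | r n < ‖w - c n‖ ∧ ‖w - c n‖ < r n + δ} := by
        rw [mem_closedBall, dist_eq_norm, not_le] at hw1n
        rw [mem_ball, dist_eq_norm] at hw1b
        exact ⟨hw1n, hw1b⟩
      have hAV : {w : ℂ | r n < ‖w - c n‖ ∧ ‖w - c n‖ < r n + δ} ⊆ V := by
        have h4 := hA.subset_connectedComponentIn hw1A hAL
        rw [← connectedComponentIn_eq hw1V] at h4
        exact h4
      refine ⟨r n + δ, by linarith, fun w hw => ?_⟩
      by_cases hwn : w ∈ closedBall (c n) (r n)
      · exact Or.inr hwn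
      · left
        apply hAV
        rw [mem_closedBall, dist_eq_norm, not_le] at hwn
        rw [mem_ball, dist_eq_norm] at hw
        exact ⟨hwn, hw⟩
    set V' : Set ℂ := V ∪ ⋃ n ∈ S, closedBall (c n) (r n) with hV'
    have hV'o : IsOpen V' := by
      rw [isOpen_iff_mem_nhds]
      rintro w (hw | hw)
      · exact Filter.mem_of_superset (hVo.mem_nhds hw) subset_union_left
      · rw [mem_iUnion₂] at hw
        obtain ⟨n, hn, hw⟩ := hw
        obtain ⟨R, hR1, hR2⟩ := hiso n hn
        have hwR : w ∈ ball (c n) R := by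
          rw [mem_ball]
          have := mem_closedBall.1 hw
          linarith
        refine Filter.mem_of_superset (isOpen_ball.mem_nhds hwR) (hR2.trans ?_)
        refine union_subset_union_right _ ?_
        intro x hx
        exact mem_iUnion₂.2 ⟨n, hn, hx⟩
    have hUL : (⋃ n ∈ S, closedBall (c n) (r n)) ⊆ L := by
      intro w hw
      rw [mem_iUnion₂] at hw
      obtain ⟨n, hn, hw⟩ := hw
      exact Or.inr (mem_iUnion.2 ⟨n, hw⟩)
    have hV'b : Bornology.IsBounded V' := hVb.union (hLb.subset hUL)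
    set C : Set ℂ := {w | w = P ∨ ∃ n, P ∈ closedBall (c n) (r n) ∧ w ∈ closedBall (c n) (r n)}
      with hC
    have hCfrontier : frontier V' ⊆ C := by
      intro w hw
      rw [hV'o.frontier_eq] at hw
      obtain ⟨hw1, hw2⟩ := hw
      have h1 : w ∈ closure V ∪ ({P} ∪ ⋃ n ∈ S, closedBall (c n) (r n)) := by
        rw [hV', closure_union] at hw1
        rcases hw1 with h | h
        · exact Or.inl h
        · right
          exact closure_minimal subset_union_right (closed_family hconv S) h
      rcases h1 with h1 | h1 | h1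
      · have hwf : w ∈ frontier V := by
          rw [hVo.frontier_eq]
          exact ⟨h1, fun h => hw2 (Or.inl h)⟩
        rcases hfr hwf with h | h
        · exact Or.inl h
        · rw [mem_iUnion] at h
          obtain ⟨n, hn⟩ := h
          by_cases hPn : P ∈ closedBall (c n) (r n)
          · exact Or.inr ⟨n, hPn, hn⟩
          · exact absurd (Or.inr (mem_iUnion₂.2 ⟨n, ⟨hPn, ⟨w, hwf, hn⟩⟩, hn⟩)) hw2
      · exact Or.inl h1
      · exact absurd (Or.inr h1) hw2
    have hCc : Convex ℝ C ∧ IsClosed C ∧ C ⊆ L := by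
      by_cases hex : ∃ n, P ∈ closedBall (c n) (r n)
      · obtain ⟨n, hn⟩ := hex
        have h1 : C = closedBall (c n) (r n) := by
          ext w
          constructor
          · rintro (h | ⟨m, hm1, hm2⟩)
            · rw [h]; exact hn
            · by_cases hmn : m = n
              · rw [← hmn]; exact hm2
              · exact absurd hn (Set.disjoint_left.1 (hdisj m n hmn) hm1)
          · intro h
            exact Or.inr ⟨n, hn, h⟩
        rw [h1]
        refine ⟨convex_closedBall _ _, isClosed_closedBall, ?_⟩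
        intro w hw
        exact Or.inr (mem_iUnion.2 ⟨n, hw⟩)
      · have h1 : C = {P} := by
          ext w
          constructor
          · rintro (h | ⟨m, hm1, hm2⟩)
            · exact h
            · exact absurd ⟨m, hm1⟩ hex
          · intro h
            exact Or.inl h
        rw [h1]
        refine ⟨convex_singleton _, isClosed_singleton, ?_⟩
        intro w hw
        exact Or.inl hw
    have h2 := sub_of_frontier hV'b hCc.1 hCc.2.1 hCfrontier (Or.inl hzV)
    exact hzL (hCc.2.2 h2)
  have h1 := isConnected_compl_hull hLc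
  rwa [hull_eq] at h1

end Pool.Agent.V1173.Chordal
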