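import Pool.Agent.V1173.Chordal.Sphere
import Pool.Agent.Helper240.ZFM.C4

/-!
# Chordally uniform limits of polynomials
-/

set_option autoImplicit false
set_option linter.all false

open Complex Filter Topology Set Metric OnePoint

namespace Pool.Agent.V1173.Chordal

/-- a stereographic embedding -/
noncomputable def sg (x : OnePoint ℂ) : ℂ × ℝ :=
  OnePoint.elim x (0, 0) fun a => (((2 / (1 + ‖a‖ ^ 2) : ℝ) : ℂ) * a, 2 / (1 + ‖a‖ ^ 2))

theorem sg_coe (a : ℂ) : sg (a : OnePoint ℂ) =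
    (((2 / (1 + ‖a‖ ^ 2) : ℝ) : ℂ) * a, 2 / (1 + ‖a‖ ^ 2)) := rfl

theorem sg_infty : sg ∞ = (0, 0) := rfl

theorem norm_sg_coe (a : ℂ) : ‖sg (a : OnePoint ℂ)‖ ≤ 2 / √(1 + ‖a‖ ^ 2) := by
  have h0 := norm_nonneg a
  have hs := sqrt_one_le a
  have hs2 := le_sqrt_one a
  have hsq : √(1 + ‖a‖ ^ 2) ^ 2 = 1 + ‖a‖ ^ 2 := Real.sq_sqrt (by positivity)
  obtain ⟨A, hAd⟩ : ∃ A, A = √(1 + ‖a‖ ^ 2) := ⟨_, rfl⟩
  rw [sg_coe, Prod.norm_def]
  simp only
  rw [← hAd] at hs hs2 hsq ⊢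
  rw [← hsq]
  apply max_le
  · rw [norm_mul, Complex.norm_real, Real.norm_of_nonneg (by positivity), div_mul_eq_mul_div,
      div_le_div_iff₀ (by positivity) (by positivity)]
    nlinarith
  · rw [Real.norm_of_nonneg (by positivity),
      div_le_div_iff₀ (by positivity) (by positivity)]
    nlinarith

theorem sg_alg (a b : ℂ) {A B : ℝ} (hA : 0 < A) (hB : 0 < B) (hA2 : A ^ 2 = 1 + ‖a‖ ^ 2)
    (hB2 : B ^ 2 = 1 + ‖b‖ ^ 2) :
    ‖((2 / A ^ 2 : ℝ) : ℂ) * a - ((2 / B ^ 2 : ℝ) : ℂ) * b‖ ^ 2 ≤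
      (2 * (‖a - b‖ / (A * B))) ^ 2 := by
  rw [Complex.sq_norm, Complex.normSq_apply] at hA2 hB2
  rw [mul_pow, div_pow, Complex.sq_norm, Complex.sq_norm, Complex.normSq_apply,
    Complex.normSq_apply]
  simp only [sub_re, sub_im, mul_re, mul_im, ofReal_re, ofReal_im, zero_mul, sub_zero, add_zero]
  obtain ⟨a1, ha1⟩ : ∃ a1, a1 = a.re := ⟨_, rfl⟩
  obtain ⟨a2, ha2⟩ : ∃ a2, a2 = a.im := ⟨_, rfl⟩
  obtain ⟨b1, hb1⟩ : ∃ b1, b1 = b.re := ⟨_, rfl⟩
  obtain ⟨b2, hb2⟩ : ∃ b2, b2 = b.im := ⟨_, rfl⟩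
  rw [← ha1, ← ha2] at hA2 ⊢
  rw [← hb1, ← hb2] at hB2 ⊢
  rw [mul_pow A B 2]
  obtain ⟨P, hP⟩ : ∃ P, P = A ^ 2 := ⟨_, rfl⟩
  obtain ⟨Q, hQ⟩ : ∃ Q, Q = B ^ 2 := ⟨_, rfl⟩
  have hP0 : 0 < P := by rw [hP]; positivity
  have hQ0 : 0 < Q := by rw [hQ]; positivity
  rw [← hP] at hA2 ⊢
  rw [← hQ] at hB2 ⊢
  have e : (2 / P * a1 - 2 / Q * b1) * (2 / P * a1 - 2 / Q * b1) +
      (2 / P * a2 - 2 / Q * b2) * (2 / P * a2 - 2 / Q * b2) =
      4 * ((a1 * Q - b1 * P) ^ 2 + (a2 * Q - b2 * P) ^ 2) / (P * Q) ^ 2 := by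
    field_simp
    ring
  have e2 : 2 ^ 2 * (((a1 - b1) * (a1 - b1) + (a2 - b2) * (a2 - b2)) / (P * Q)) =
      4 * (P * Q * ((a1 - b1) ^ 2 + (a2 - b2) ^ 2)) / (P * Q) ^ 2 := by
    field_simp
    ring
  rw [e, e2]
  apply div_le_div_of_nonneg_right _ (by positivity)
  have key : (a1 * Q - b1 * P) ^ 2 + (a2 * Q - b2 * P) ^ 2 =
      P * Q * ((a1 - b1) ^ 2 + (a2 - b2) ^ 2) - (P - Q) ^ 2 := by
    rw [hA2, hB2]
    ring
  nlinarith [sq_nonneg (P - Q)]

theorem sg_alg2 (a b : ℂ) {A B : ℝ} (hA : 0 < A) (hB : 0 < B) (hA2 : A ^ 2 = 1 + ‖a‖ ^ 2)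
    (hB2 : B ^ 2 = 1 + ‖b‖ ^ 2) :
    |2 / A ^ 2 - 2 / B ^ 2| ≤ 2 * (‖a - b‖ / (A * B)) := by
  have hab : ‖a‖ + ‖b‖ ≤ A * B := by
    refine (sq_le_sq₀ (by positivity) (by positivity)).1 ?_
    rw [mul_pow, hA2, hB2]
    nlinarith [sq_nonneg (1 - ‖a‖ * ‖b‖)]
  have e : 2 / A ^ 2 - 2 / B ^ 2 = 2 * ((‖b‖ - ‖a‖) * (‖a‖ + ‖b‖)) / (A * B) ^ 2 := by
    have h1 : B ^ 2 - A ^ 2 = (‖b‖ - ‖a‖) * (‖a‖ + ‖b‖) := by
      rw [hA2, hB2]; ring
    rw [← h1]
    field_simp
  rw [e, abs_div, abs_mul, abs_mul, abs_two, abs_of_nonneg (show 0 ≤ (A * B) ^ 2 by positivity),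
    abs_of_nonneg (show 0 ≤ ‖a‖ + ‖b‖ by positivity)]
  have h2 : |‖b‖ - ‖a‖| ≤ ‖a - b‖ := by
    rw [norm_sub_rev]
    exact abs_norm_sub_norm_le b a
  rw [div_le_iff₀ (by positivity)]
  have e2 : 2 * (‖a - b‖ / (A * B)) * (A * B) ^ 2 = 2 * (‖a - b‖ * (A * B)) := by
    field_simp
  rw [e2]
  have : |‖b‖ - ‖a‖| * (‖a‖ + ‖b‖) ≤ ‖a - b‖ * (A * B) :=
    mul_le_mul h2 hab (by positivity) (norm_nonneg _)
  linarith

theorem sg_dist (x y : OnePoint ℂ) : ‖sg x - sg y‖ ≤ 2 * chi x y := by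
  induction x using OnePoint.rec with
  | infty =>
    induction y using OnePoint.rec with
    | infty => rw [sub_self, norm_zero]; exact mul_nonneg (by norm_num) (chi_nonneg _ _)
    | coe b =>
      rw [sg_infty, show ((0 : ℂ), (0 : ℝ)) = 0 from rfl, zero_sub, norm_neg]
      refine (norm_sg_coe b).trans (le_of_eq ?_)
      change _ = 2 * (1 / √(1 + ‖b‖ ^ 2))
      ring
  | coe a =>
    induction y using OnePoint.rec with
    | infty =>
      rw [sg_infty, show ((0 : ℂ), (0 : ℝ)) = 0 from rfl, sub_zero]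
      refine (norm_sg_coe a).trans (le_of_eq ?_)
      change _ = 2 * (1 / √(1 + ‖a‖ ^ 2))
      ring
    | coe b =>
      have hA := sqrt_one_le a
      have hB := sqrt_one_le b
      have hA2 : √(1 + ‖a‖ ^ 2) ^ 2 = 1 + ‖a‖ ^ 2 := Real.sq_sqrt (by positivity)
      have hB2 : √(1 + ‖b‖ ^ 2) ^ 2 = 1 + ‖b‖ ^ 2 := Real.sq_sqrt (by positivity)
      rw [chi_coe]
      obtain ⟨A, hAd⟩ : ∃ A, A = √(1 + ‖a‖ ^ 2) := ⟨_, rfl⟩
      obtain ⟨B, hBd⟩ : ∃ B, B = √(1 + ‖b‖ ^ 2) := ⟨_, rfl⟩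
      rw [← hAd] at hA hA2 ⊢
      rw [← hBd] at hB hB2 ⊢
      have hA0 : 0 < A := by linarith
      have hB0 : 0 < B := by linarith
      have e1 : sg (a : OnePoint ℂ) - sg (b : OnePoint ℂ) =
          ((((2 / A ^ 2 : ℝ) : ℂ) * a - ((2 / B ^ 2 : ℝ) : ℂ) * b), 2 / A ^ 2 - 2 / B ^ 2) := by
        rw [sg_coe, sg_coe, ← hA2, ← hB2]
        rfl
      rw [e1, Prod.norm_def]
      simp only
      apply max_le
      · exact (sq_le_sq₀ (norm_nonneg _) (by positivity)).1 (sg_alg a b hA0 hB0 hA2 hB2)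
      · rw [Real.norm_eq_abs]
        exact sg_alg2 a b hA0 hB0 hA2 hB2

theorem sg_inj : Function.Injective sg := by
  intro x y h
  induction x using OnePoint.rec with
  | infty =>
    induction y using OnePoint.rec with
    | infty => rfl
    | coe b =>
      exfalso
      rw [sg_infty, sg_coe] at h
      have h1 := congrArg Prod.snd h
      simp only at h1
      have : 0 < 2 / (1 + ‖b‖ ^ 2) := by positivity
      linarith
  | coe a =>
    induction y using OnePoint.rec with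
    | infty =>
      exfalso
      rw [sg_infty, sg_coe] at h
      have h1 := congrArg Prod.snd h
      simp only at h1
      have : 0 < 2 / (1 + ‖a‖ ^ 2) := by positivity
      linarith
    | coe b =>
      rw [sg_coe, sg_coe] at h
      have h1 := congrArg Prod.snd h
      have h2 := congrArg Prod.fst h
      simp only at h1 h2
      rw [h1] at h2
      have h3 : (((2 / (1 + ‖b‖ ^ 2) : ℝ)) : ℂ) ≠ 0 := by
        rw [Complex.ofReal_ne_zero]
        positivity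
      rw [mul_right_inj' h3] at h2
      rw [h2]

theorem sg_cont : Continuous sg := by
  rw [continuous_iff_continuousAt]
  intro x
  induction x using OnePoint.rec with
  | infty =>
    rw [OnePoint.continuousAt_infty', Filter.coclosedCompact_eq_cocompact, sg_infty]
    have h0 : Tendsto (fun a : ℂ => 2 / ‖a‖) (cocompact ℂ) (𝓝 0) :=
      (tendsto_norm_cocompact_atTop).const_div_atTop 2
    rw [show ((0 : ℂ), (0 : ℝ)) = 0 from rfl]
    refine squeeze_zero_norm' ?_ h0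
    have h1 : ∀ᶠ a : ℂ in cocompact ℂ, 1 ≤ ‖a‖ :=
      (tendsto_norm_cocompact_atTop (E := ℂ)).eventually_ge_atTop 1
    filter_upwards [h1] with a ha
    refine (norm_sg_coe a).trans ?_
    exact div_le_div_of_nonneg_left (by norm_num) (by linarith) (le_sqrt_one a)
  | coe a =>
    rw [← OnePoint.isOpenEmbedding_coe.continuousAt_iff]
    have h1 : sg ∘ ((↑) : ℂ → OnePoint ℂ) =
        fun a : ℂ => (((2 / (1 + ‖a‖ ^ 2) : ℝ) : ℂ) * a, 2 / (1 + ‖a‖ ^ 2)) := by
      funext a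
      exact sg_coe a
    rw [h1]
    have h2 : Continuous fun a : ℂ => (2 / (1 + ‖a‖ ^ 2) : ℝ) :=
      continuous_const.div (by fun_prop) (fun a => by positivity)
    exact (((Complex.continuous_ofReal.comp h2).mul continuous_id).prodMk h2).continuousAt

theorem sg_emb : Topology.IsEmbedding sg :=
  (sg_cont.isClosedEmbedding sg_inj).isEmbedding

/-- chordally uniform limits of continuous functions are continuous -/
theorem continuous_of_limit {X : Type*} [TopologicalSpace X] (F : ℕ → X → OnePoint ℂ)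
    (f : X → OnePoint ℂ) (hF : ∀ n, Continuous (F n))
    (h : ∀ ε : ℝ, 0 < ε → ∃ N : ℕ, ∀ n ≥ N, ∀ x, chi (F n x) (f x) < ε) : Continuous f := by
  rw [sg_emb.continuous_iff]
  refine TendstoUniformly.continuous (F := fun n x => sg (F n x)) (p := atTop) ?_
    (Frequently.of_forall fun n => sg_cont.comp (hF n))
  rw [Metric.tendstoUniformly_iff]
  intro ε hε
  obtain ⟨N, hN⟩ := h (ε / 2) (by positivity)
  filter_upwards [eventually_ge_atTop N] with n hn x
  rw [dist_eq_norm, norm_sub_rev]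
  have h1 := hN n hn x
  have h2 := sg_dist (F n x) (f x)
  change ‖sg (F n x) - sg (f x)‖ < ε
  linarith

/-- The dichotomy for chordally uniform limits of polynomials. -/
theorem dichotomy {L : Set ℂ} {f : ℂ → OnePoint ℂ} (hf : ContinuousOn f L)
    (p : ℕ → Polynomial ℂ)
    (h : ∀ ε : ℝ, 0 < ε → ∃ N : ℕ, ∀ n ≥ N, ∀ z ∈ L,
      chi (((p n).eval z : ℂ) : OnePoint ℂ) (f z) < ε)
    (V : Set ℂ) (hVo : IsOpen V) (hVc : IsPreconnected V) (hV : V ⊆ interior L) :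
    (∀ z ∈ V, f z = ∞) ∨ ((∀ z ∈ V, f z ≠ ∞) ∧ DifferentiableOn ℂ (fun z => fin (f z)) V) := by
  have hcA : ∀ z ∈ interior L, ContinuousAt f z := by
    intro z hz
    exact (hf z (interior_subset hz)).continuousAt (mem_interior_iff_mem_nhds.1 hz)
  -- finite points: local uniform convergence
  have hfin : ∀ a ∈ interior L, f a ≠ ∞ → DifferentiableAt ℂ (fun z => fin (f z)) a := by
    intro a ha hfa
    have h1 : ∀ᶠ z in 𝓝 a, f z ∈ {x : OnePoint ℂ | x ≠ ∞ ∧ ‖fin x‖ < ‖fin (f a)‖ + 1} :=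
      (hcA a ha).eventually_mem ((isOpen_small _).mem_nhds ⟨hfa, by linarith⟩)
    have h2 : ∀ᶠ z in 𝓝 a, z ∈ interior L := isOpen_interior.mem_nhds ha
    obtain ⟨r, hr, hball⟩ := Metric.eventually_nhds_iff_ball.1 (h1.and h2)
    set M := ‖fin (f a)‖ + 1 with hM
    have hM1 : 1 ≤ M := by rw [hM]; linarith [norm_nonneg (fin (f a))]
    have hlim : TendstoUniformlyOn (fun n z => (p n).eval z) (fun z => fin (f z)) atTop
        (ball a r) := by
      rw [Metric.tendstoUniformlyOn_iff]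
      intro ε hε
      obtain ⟨N, hN⟩ := h (min (1 / (2 * (1 + M))) (ε / (2 * (1 + M) ^ 2))) (by positivity)
      filter_upwards [eventually_ge_atTop N] with n hn z hz
      obtain ⟨⟨h3, h4⟩, h5⟩ := hball z hz
      have h6 := hN n hn z (interior_subset h5)
      rw [← coe_fin h3] at h6
      have h7 := dist_le_chi (M := M) (a := (p n).eval z) (b := fin (f z)) h4.le
        (h6.le.trans (min_le_left _ _))
      rw [dist_eq_norm, norm_sub_rev]
      refine h7.trans_lt ?_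
      have h8 := h6.trans_le (min_le_right _ _)
      rw [lt_div_iff₀ (by positivity)] at h8
      linarith
    have h3 := hlim.tendstoLocallyUniformlyOn.differentiableOn
      (Eventually.of_forall fun n => (p n).differentiable.differentiableOn) isOpen_ball
    exact h3.differentiableAt (ball_mem_nhds a hr)
  -- infinite points
  have hinf : ∀ a ∈ interior L, f a = ∞ → ∀ᶠ z in 𝓝 a, f z = ∞ := by
    intro a ha hfa
    have h1 : ∀ᶠ z in 𝓝 a, f z ∈ {x : OnePoint ℂ | x = ∞ ∨ 2 < ‖fin x‖} :=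
      (hcA a ha).eventually_mem ((isOpen_big _).mem_nhds (Or.inl hfa))
    have h2 : ∀ᶠ z in 𝓝 a, z ∈ interior L := isOpen_interior.mem_nhds ha
    obtain ⟨r, hr, hball⟩ := Metric.eventually_nhds_iff_ball.1 (h1.and h2)
    obtain ⟨N0, hN0⟩ := h (1 / 4) (by norm_num)
    have hbig : ∀ z ∈ ball a r, f z = ∞ ∨ 2 ≤ ‖fin (f z)‖ := by
      intro z hz
      rcases (hball z hz).1 with h3 | h3
      · exact Or.inl h3
      · exact Or.inr h3.le
    have hne : ∀ n, ∀ z ∈ ball a r, (p (n + N0)).eval z ≠ 0 := by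
      intro n z hz
      exact (inv_le_chi (hbig z hz) (hN0 (n + N0) (Nat.le_add_left _ _) z
        (interior_subset (hball z hz).2)).le).1
    have hlim : TendstoUniformlyOn (fun n z => ((p (n + N0)).eval z)⁻¹)
        (fun z => (fin (f z))⁻¹) atTop (ball a r) := by
      rw [Metric.tendstoUniformlyOn_iff]
      intro ε hε
      obtain ⟨N, hN⟩ := h (min (1 / 4) (ε / 8)) (by positivity)
      filter_upwards [eventually_ge_atTop N] with n hn z hz
      have h6 := hN (n + N0) (by omega) z (interior_subset (hball z hz).2)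
      have h7 := (inv_le_chi (hbig z hz) (h6.le.trans (min_le_left _ _))).2
      rw [dist_eq_norm, norm_sub_rev]
      refine h7.trans_lt ?_
      have h8 := h6.trans_le (min_le_right _ _)
      linarith
    have h3 := ZFM.J_c4.hurwitz (V := ball a r) isOpen_ball
      (F := fun n z => ((p (n + N0)).eval z)⁻¹) (f := fun z => (fin (f z))⁻¹)
      (fun n => (p (n + N0)).differentiable.differentiableOn.inv (hne n))
      hlim.tendstoLocallyUniformlyOn (fun n z hz => inv_ne_zero (hne n z hz))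
      (mem_ball_self hr) (by simp only [hfa, fin_infty, inv_zero])
    filter_upwards [h3, ball_mem_nhds a hr] with z hz1 hz2
    rcases hbig z hz2 with h4 | h4
    · exact h4
    · rw [inv_eq_zero] at hz1
      rw [hz1, norm_zero] at h4
      norm_num at h4
  have hA : IsOpen {z | z ∈ interior L ∧ f z = ∞} := by
    rw [isOpen_iff_mem_nhds]
    rintro z ⟨hz1, hz2⟩
    filter_upwards [hinf z hz1 hz2, isOpen_interior.mem_nhds hz1] with w hw1 hw2
    exact ⟨hw2, hw1⟩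
  have hB : IsOpen {z | z ∈ interior L ∧ f z ≠ ∞} := by
    rw [isOpen_iff_mem_nhds]
    rintro z ⟨hz1, hz2⟩
    have h1 : ∀ᶠ w in 𝓝 z, f w ≠ ∞ := (hcA z hz1).eventually_ne hz2
    filter_upwards [h1, isOpen_interior.mem_nhds hz1] with w hw1 hw2
    exact ⟨hw2, hw1⟩
  have hdisj : Disjoint {z | z ∈ interior L ∧ f z = ∞} {z | z ∈ interior L ∧ f z ≠ ∞} := by
    rw [Set.disjoint_left]
    rintro z ⟨_, h1⟩ ⟨_, h2⟩
    exact h2 h1
  have hcov : V ⊆ {z | z ∈ interior L ∧ f z = ∞} ∪ {z | z ∈ interior L ∧ f z ≠ ∞} := by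
    intro z hz
    by_cases h1 : f z = ∞
    · exact Or.inl ⟨hV hz, h1⟩
    · exact Or.inr ⟨hV hz, h1⟩
  rcases hVc.subset_or_subset hA hB hdisj hcov with h1 | h1
  · left
    exact fun z hz => (h1 hz).2
  · right
    refine ⟨fun z hz => (h1 hz).2, fun z hz => ?_⟩
    exact (hfin z (hV hz) (h1 hz).2).differentiableWithinAt

end Pool.Agent.V1173.Chordal
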