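import Pool.Agent.Helper240.ZFM.Defs
import Pool.Agent.Helper240.ZFM.R1
import Pool.Agent.Helper240.ZFM.R2
import Pool.Agent.Helper240.ZFM.R3
import Pool.Agent.Helper240.ZFM.Q1
import Pool.Agent.Helper240.ZFM.Q4

/-!
# Polynomial approximation of functions with small `∂̄`
-/

set_option autoImplicit false
set_option linter.all false

open Complex Filter Topology Set Metric ZFM ZFM.J_r3

namespace Pool.Agent.V1173.Chordal

theorem cauchy_zero {K : Set ℂ} [CompactSpace K] (hKc : IsConnected Kᶜ)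
    (Λ : C(K, ℂ) →L[ℂ] ℂ) (hΛ : ∀ p : Polynomial ℂ, Λ (p.toContinuousMapOn K) = 0)
    (D : ℂ → ℂ) (hdc : Continuous D) (E : Set ℂ) (hE : IsCompact E)
    (hEK : Disjoint E K) (F : C(K, ℂ))
    (hF : ∀ z : K, F z = ∫ w in E, D w / ((z : ℂ) - w)) : Λ F = 0 := by
  have hne : ∀ (w : ℂ) (z : K), w ∈ E → (z : ℂ) - w ≠ 0 := by
    intro w z hw h0
    rw [sub_eq_zero] at h0
    exact Set.disjoint_left.1 hEK hw (h0 ▸ z.2)
  obtain ⟨φ, hφ⟩ : ∃ φ : C(E × K, ℂ), ∀ p, φ p = D p.1 / ((p.2 : ℂ) - p.1) := by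
    refine ⟨⟨fun p => D p.1 / ((p.2 : ℂ) - p.1), ?_⟩, fun p => rfl⟩
    refine Continuous.div ?_ ?_ (fun p => hne p.1 p.2 p.1.2)
    · exact hdc.comp (continuous_subtype_val.comp continuous_fst)
    · exact (continuous_subtype_val.comp continuous_snd).sub
        (continuous_subtype_val.comp continuous_fst)
  classical
  obtain ⟨G, hG⟩ : ∃ G : ℂ → C(K, ℂ), ∀ (w : ℂ) (h : w ∈ E), G w = φ.curry ⟨w, h⟩ :=
    ⟨fun w => if h : w ∈ E then φ.curry ⟨w, h⟩ else 0, fun w h => dif_pos h⟩
  have hGc : ContinuousOn G E := by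
    rw [continuousOn_iff_continuous_domRestrict]
    have h1 : E.domRestrict G = φ.curry := by
      funext w
      exact hG w w.2
    rw [h1]
    exact φ.curry.continuous
  have hGi : MeasureTheory.IntegrableOn G E MeasureTheory.volume := hGc.integrableOn_compact hE
  have hGv : ∀ w ∈ E, ∀ z : K, G w z = D w / ((z : ℂ) - w) := by
    intro w hw z
    rw [hG w hw, ContinuousMap.curry_apply, hφ]
  have hint : F = ∫ w in E, G w := by
    ext z
    have h1 : (∫ w in E, G w) z = ∫ w in E, G w z :=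
      ((ContinuousMap.evalCLM ℂ z).integral_comp_comm hGi).symm
    rw [h1]
    have h2 : ∫ w in E, G w z = ∫ w in E, D w / ((z : ℂ) - w) :=
      MeasureTheory.setIntegral_congr_fun hE.measurableSet fun w hw => hGv w hw z
    rw [h2, hF]
  rw [hint, ← Λ.integral_comp_comm hGi]
  refine MeasureTheory.setIntegral_eq_zero_of_forall_eq_zero fun w hw => ?_
  have hwK : w ∉ K := Set.disjoint_left.1 hEK hw
  obtain ⟨k, hk⟩ : ∃ k : C(K, ℂ), ∀ z : K, k z = 1 / ((z : ℂ) - w) := by
    refine ⟨⟨fun z => 1 / ((z : ℂ) - w), ?_⟩, fun z => rfl⟩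
    refine Continuous.div continuous_const ?_ (fun z => hne w z hw)
    exact continuous_subtype_val.sub continuous_const
  have h1 : G w = D w • k := by
    ext z
    rw [hGv w hw]
    change _ = D w • k z
    rw [hk, smul_eq_mul, mul_one_div]
  rw [h1, map_smul, functional_cauchy hKc Λ hΛ w hwK k hk, smul_zero]

/-- Cauchy transforms of densities off `K` are limits of polynomials on `K`. -/
theorem cauchy_approx {K : Set ℂ} (hK : IsCompact K) (hKc : IsConnected Kᶜ)
    (D : ℂ → ℂ) (hdc : Continuous D) (E : Set ℂ) (hE : IsCompact E) (hEK : Disjoint E K)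
    (F : ℂ → ℂ) (hFc : ContinuousOn F K)
    (hF : ∀ z ∈ K, F z = ∫ w in E, D w / (z - w)) (ε : ℝ) (hε : 0 < ε) :
    ∃ p : Polynomial ℂ, ∀ z ∈ K, ‖F z - p.eval z‖ < ε := by
  have : CompactSpace K := isCompact_iff_compactSpace.1 hK
  obtain ⟨G, hG⟩ : ∃ G : C(K, ℂ), ∀ z : K, G z = F z :=
    ⟨⟨fun z => F z, continuousOn_iff_continuous_domRestrict.1 hFc⟩, fun z => rfl⟩
  by_cases hcl : G ∈ closure ((LinearMap.range
      (Polynomial.toContinuousMapOnAlgHom (R := ℂ) K).toLinearMap : Submodule ℂ C(K, ℂ)) :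
        Set C(K, ℂ))
  · obtain ⟨b, hb, hbd⟩ := Metric.mem_closure_iff.1 hcl ε hε
    obtain ⟨p, rfl⟩ := hb
    refine ⟨p, fun z hz => ?_⟩
    rw [dist_eq_norm] at hbd
    refine lt_of_le_of_lt ?_ hbd
    have h1 := ContinuousMap.norm_coe_le_norm
      (G - (Polynomial.toContinuousMapOnAlgHom (R := ℂ) K).toLinearMap p) ⟨z, hz⟩
    have h2 : (G - (Polynomial.toContinuousMapOnAlgHom (R := ℂ) K).toLinearMap p) ⟨z, hz⟩ =
        F z - p.eval z := by
      rw [ContinuousMap.sub_apply, hG]
      rfl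
    rw [h2] at h1
    exact h1
  · exfalso
    obtain ⟨Λ, hΛ, hne⟩ := runge_hb _ G hcl
    apply hne
    refine cauchy_zero hKc Λ (fun p => hΛ _ ⟨p, rfl⟩) D hdc E hE hEK G fun z => ?_
    rw [hG, hF z z.2]

theorem dbar_mul {f g : ℂ → ℂ} {z : ℂ} (hf : DifferentiableAt ℝ f z)
    (hg : DifferentiableAt ℝ g z) :
    dbar (fun w => f w * g w) z = dbar f z * g z + f z * dbar g z := by
  unfold dbar
  have h := fderiv_fun_mul hf hg
  rw [h]
  simp only [ContinuousLinearMap.add_apply, ContinuousLinearMap.smul_apply, smul_eq_mul]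
  ring

theorem dbar_congr {f g : ℂ → ℂ} {z : ℂ} (h : f =ᶠ[𝓝 z] g) : dbar f z = dbar g z := by
  unfold dbar
  rw [h.fderiv_eq]

theorem dbar_holo {f : ℂ → ℂ} {z : ℂ} (h : DifferentiableAt ℂ f z) : dbar f z = 0 := by
  exact ZFM.J_q1.dbar_of_hasDerivAt h.hasDerivAt

/-- Functions with small `∂̄` near a compact set with connected complement are close to
polynomials. -/
theorem approx_dbar {K : Set ℂ} (hK : IsCompact K) (hKc : IsConnected Kᶜ) :
    ∃ C : ℝ, 0 < C ∧ ∀ (U : Set ℂ) (F : ℂ → ℂ) (β : ℝ), IsOpen U → K ⊆ U → 0 ≤ β →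
      (∀ z ∈ U, ContDiffAt ℝ 1 F z) → (∀ z ∈ U, ‖dbar F z‖ ≤ β) → ∀ ε : ℝ, 0 < ε →
      ∃ p : Polynomial ℂ, ∀ z ∈ K, ‖p.eval z - F z‖ ≤ C * β + ε := by
  obtain ⟨r, hr0, hKr⟩ : ∃ r : ℝ, 0 < r ∧ K ⊆ ball 0 r := by
    obtain ⟨r, hr⟩ := hK.isBounded.subset_ball 0
    exact ⟨max r 1, lt_of_lt_of_le one_pos (le_max_right _ _),
      hr.trans (ball_subset_ball (le_max_left _ _))⟩
  obtain ⟨C0, hC0, hib⟩ := int_bound
  refine ⟨C0 * (2 * r), by positivity, ?_⟩
  intro U F β hU hKU hβ hF hFb ε hε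
  obtain ⟨L, hL, hKL, hLU⟩ := exists_compact_between hK (hU.inter isOpen_ball)
    (subset_inter hKU hKr)
  obtain ⟨χ, hχ1, hχ0, hχI⟩ := exists_contMDiffMap_one_nhds_of_subset_interior
    (modelWithCornersSelf ℝ ℂ) (n := 1) hK.isClosed hKL
  have hχc : ContDiff ℝ 1 (fun z : ℂ => χ z) := χ.contMDiff.contDiff
  have hχc' : ContDiff ℝ 1 (fun z : ℂ => ((χ z : ℝ) : ℂ)) := Complex.ofRealCLM.contDiff.comp hχc
  obtain ⟨V, hV, hKV, hV1⟩ := eventually_nhdsSet_iff_exists.1 hχ1
  set u : ℂ → ℂ := fun z => ((χ z : ℝ) : ℂ) * F z with hu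
  have hzero : ∀ z, z ∉ L → u z = 0 := by
    intro z hz
    change ((χ z : ℝ) : ℂ) * F z = 0
    rw [hχ0 z hz, Complex.ofReal_zero, zero_mul]
  have hev0 : ∀ z, z ∉ L → u =ᶠ[𝓝 z] fun _ => (0 : ℂ) := by
    intro z hz
    filter_upwards [hL.isClosed.isOpen_compl.mem_nhds hz] with w hw
    exact hzero w hw
  have huc : ContDiff ℝ 1 u := by
    rw [contDiff_iff_contDiffAt]
    intro z
    by_cases hz : z ∈ U
    · exact hχc'.contDiffAt.mul (hF z hz)
    · have hz' : z ∉ L := fun h => hz (hLU h).1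
      exact contDiffAt_const.congr_of_eventuallyEq (hev0 z hz')
  have husupp : HasCompactSupport u := HasCompactSupport.intro hL hzero
  have hdbc : ∀ g : ℂ → ℂ, ContDiff ℝ 1 g → Continuous (dbar g) := by
    intro g hg
    have hfc : Continuous (fderiv ℝ g) := hg.continuous_fderiv (by norm_num)
    unfold dbar
    have h1 : Continuous (fun z => fderiv ℝ g z 1) := hfc.clm_apply continuous_const
    have h2 : Continuous (fun z => fderiv ℝ g z I) := hfc.clm_apply continuous_const
    fun_prop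
  have hduc := hdbc u huc
  -- the part supported off K
  set D1 : ℂ → ℂ := fun z => ((χ z : ℝ) : ℂ) * dbar F z with hD1
  set D2 : ℂ → ℂ := fun z => dbar (fun z : ℂ => ((χ z : ℝ) : ℂ)) z * F z with hD2
  have hdχ0 : ∀ z, z ∉ L → dbar (fun z : ℂ => ((χ z : ℝ) : ℂ)) z = 0 := by
    intro z hz
    have h1 : (fun z : ℂ => ((χ z : ℝ) : ℂ)) =ᶠ[𝓝 z] fun _ => (0 : ℂ) := by
      filter_upwards [hL.isClosed.isOpen_compl.mem_nhds hz] with w hw
      rw [hχ0 w hw, Complex.ofReal_zero]
    rw [dbar_congr h1]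
    exact dbar_holo (differentiableAt_const _)
  have hdχ1 : ∀ z ∈ V, dbar (fun z : ℂ => ((χ z : ℝ) : ℂ)) z = 0 := by
    intro z hz
    have h1 : (fun z : ℂ => ((χ z : ℝ) : ℂ)) =ᶠ[𝓝 z] fun _ => (1 : ℂ) := by
      filter_upwards [hV.mem_nhds hz] with w hw
      rw [hV1 w hw, Complex.ofReal_one]
    rw [dbar_congr h1]
    exact dbar_holo (differentiableAt_const _)
  have hsplit : ∀ z, dbar u z = D1 z + D2 z := by
    intro z
    by_cases hz : z ∈ U
    · have h1 := dbar_mul (f := fun z : ℂ => ((χ z : ℝ) : ℂ)) (g := F) (z := z)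
        ((hχc'.contDiffAt (x := z)).differentiableAt (by norm_num)) ((hF z hz).differentiableAt (by norm_num))
      change dbar (fun z => ((χ z : ℝ) : ℂ) * F z) z = _
      rw [h1, hD1, hD2]
      ring
    · have hz' : z ∉ L := fun h => hz (hLU h).1
      rw [dbar_congr (hev0 z hz'), dbar_holo (differentiableAt_const _)]
      simp only [hD1, hD2]
      rw [hχ0 z hz', hdχ0 z hz', Complex.ofReal_zero]
      ring
  have hD2c : Continuous D2 := by
    rw [continuous_iff_continuousAt]
    intro z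
    by_cases hz : z ∈ U
    · exact ((hdbc _ hχc').continuousAt).mul (hF z hz).continuousAt
    · have hz' : z ∉ L := fun h => hz (hLU h).1
      have h1 : D2 =ᶠ[𝓝 z] fun _ => (0 : ℂ) := by
        filter_upwards [hL.isClosed.isOpen_compl.mem_nhds hz'] with w hw
        simp only [hD2]
        rw [hdχ0 w hw, zero_mul]
      exact continuousAt_const.congr h1.symm
  have hD1c : Continuous D1 := by
    have h1 : D1 = fun z => dbar u z - D2 z := by
      funext z
      rw [hsplit z]
      ring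
    rw [h1]
    exact hduc.sub hD2c
  have hD10 : ∀ z, z ∉ L → D1 z = 0 := by
    intro z hz
    simp only [hD1]
    rw [hχ0 z hz, Complex.ofReal_zero, zero_mul]
  have hD1b : ∀ z, ‖D1 z‖ ≤ β := by
    intro z
    by_cases hz : z ∈ L
    · simp only [hD1]
      rw [norm_mul, Complex.norm_real, Real.norm_of_nonneg (hχI z).1]
      have h1 := (hχI z).2
      have h2 := hFb z (hLU hz).1
      calc _ ≤ 1 * β := mul_le_mul h1 h2 (norm_nonneg _) zero_le_one
        _ = β := one_mul _
    · rw [hD10 z hz, norm_zero]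
      exact hβ
  set E : Set ℂ := L \ V with hE
  have hEc : IsCompact E := hL.diff hV
  have hEK : Disjoint E K := by
    rw [Set.disjoint_left]
    intro z hz hzK
    exact hz.2 (hKV hzK)
  have hD20 : ∀ z, z ∉ E → D2 z = 0 := by
    intro z hz
    simp only [hD2]
    by_cases hzL : z ∈ L
    · have hzV : z ∈ V := by
        by_contra h
        exact hz ⟨hzL, h⟩
      rw [hdχ1 z hzV, zero_mul]
    · rw [hdχ0 z hzL, zero_mul]
  -- integrability of the kernels
  have hLr : L ⊆ ball 0 r := fun z hz => (hLU hz).2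
  have hker : ∀ z ∈ K, ∀ w ∈ L, ‖z - w‖ ≤ 2 * r := by
    intro z hz w hw
    have h1 := mem_ball_zero_iff.1 (hKr hz)
    have h2 := mem_ball_zero_iff.1 (hLr hw)
    calc ‖z - w‖ ≤ ‖z‖ + ‖w‖ := norm_sub_le _ _
      _ ≤ 2 * r := by linarith
  have hkb : ∀ z ∈ K, ∀ w, ‖D1 w / (z - w)‖ ≤
      β * min (1 * (1 / (2 * r) + 1 / ‖z - w‖)) (1 * (2 * r) ^ 2 / ‖z - w‖ ^ 3) := by
    intro z hz w
    by_cases hw : w ∈ L
    · rw [norm_div]
      rcases eq_or_lt_of_le (norm_nonneg (z - w)) with h0 | h0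
      · rw [← h0]
        simp
        positivity
      · have h1 : ‖D1 w‖ / ‖z - w‖ ≤ β * (1 / ‖z - w‖) := by
          rw [mul_one_div]
          exact div_le_div_of_nonneg_right (hD1b w) h0.le
        refine h1.trans (mul_le_mul_of_nonneg_left (le_min ?_ ?_) hβ)
        · rw [one_mul]
          have : 0 ≤ 1 / (2 * r) := by positivity
          linarith
        · rw [one_mul, div_le_div_iff₀ h0 (by positivity)]
          have h2 := hker z hz w hw
          have h3 : ‖z - w‖ ^ 2 ≤ (2 * r) ^ 2 := by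
            apply pow_le_pow_left₀ h0.le h2
          nlinarith
    · rw [hD10 w hw]
      simp only [zero_div, norm_zero]
      apply mul_nonneg hβ
      apply le_min <;> positivity
  have hi1 : ∀ z ∈ K, MeasureTheory.Integrable (fun w => D1 w / (z - w)) := by
    intro z hz
    refine MeasureTheory.Integrable.mono' (((hib 1 (2 * r) z (by positivity) zero_le_one).1).const_mul β) ?_
      (Eventually.of_forall (hkb z hz))
    refine Measurable.aestronglyMeasurable ?_
    exact hD1c.measurable.div (measurable_const.sub measurable_id)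
  have hi2 : ∀ z ∈ K, MeasureTheory.Integrable (fun w => D2 w / (z - w)) := by
    intro z hz
    have h1 : ContinuousOn (fun w => D2 w / (z - w)) E := by
      refine hD2c.continuousOn.div (continuousOn_const.sub continuousOn_id) ?_
      intro w hw h0
      rw [sub_eq_zero] at h0
      exact Set.disjoint_left.1 hEK hw (h0 ▸ hz)
    have h2 := h1.integrableOn_compact (μ := MeasureTheory.volume) hEc
    rw [← MeasureTheory.integrableOn_univ]
    refine h2.of_forall_sdiff_eq_zero MeasurableSet.univ ?_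
    rintro w ⟨_, hw⟩
    rw [hD20 w hw, zero_div]
  have hpi : (Real.pi : ℂ) ≠ 0 := by exact_mod_cast Real.pi_ne_zero
  have hrep : ∀ z ∈ K, F z = (1 / (Real.pi : ℂ)) * (∫ w, D1 w / (z - w)) +
      (1 / (Real.pi : ℂ)) * ∫ w in E, D2 w / (z - w) := by
    intro z hz
    have h1 := pompeiu u huc husupp z
    have h2 : u z = F z := by
      simp only [hu]
      rw [hV1 z (hKV hz), Complex.ofReal_one, one_mul]
    rw [h2] at h1
    rw [h1, ← mul_add]
    congr 1
    have h3 : ∫ w in E, D2 w / (z - w) = ∫ w, D2 w / (z - w) :=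
      MeasureTheory.setIntegral_eq_integral_of_forall_compl_eq_zero fun w hw => by
        rw [hD20 w hw, zero_div]
    rw [h3, ← MeasureTheory.integral_add (hi1 z hz) (hi2 z hz)]
    congr 1
    funext w
    rw [hsplit w, add_div]
  -- the first part is small
  have hsmall : ∀ z ∈ K, ‖(1 / (Real.pi : ℂ)) * (∫ w, D1 w / (z - w))‖ ≤ C0 * (2 * r) * β := by
    intro z hz
    have h1 : ‖∫ w, D1 w / (z - w)‖ ≤ β * (C0 * 1 * (2 * r)) := by
      refine (MeasureTheory.norm_integral_le_of_norm_le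
        (((hib 1 (2 * r) z (by positivity) zero_le_one).1).const_mul β)
        (Eventually.of_forall (hkb z hz))).trans ?_
      rw [MeasureTheory.integral_const_mul]
      exact mul_le_mul_of_nonneg_left (hib 1 (2 * r) z (by positivity) zero_le_one).2 hβ
    rw [norm_mul]
    have h2 : ‖(1 / (Real.pi : ℂ))‖ ≤ 1 := by
      rw [norm_div, norm_one, Complex.norm_real, Real.norm_eq_abs, abs_of_pos Real.pi_pos]
      rw [div_le_one Real.pi_pos]
      linarith [Real.pi_gt_three]
    calc _ ≤ 1 * (β * (C0 * 1 * (2 * r))) := mul_le_mul h2 h1 (norm_nonneg _) zero_le_one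
      _ = _ := by ring
  -- the second part is approximable
  have hcont2 : ContinuousOn (fun z => ∫ w in E, D2 w / (z - w)) K := by
    intro z hz
    have hd : 0 < Metric.infDist z E ∨ E = ∅ := by
      rcases E.eq_empty_or_nonempty with h | h
      · exact Or.inr h
      · left
        rw [← hEc.isClosed.notMem_iff_infDist_pos h]
        exact fun h' => Set.disjoint_left.1 hEK h' hz
    rcases hd with hd | hd
    · set d := Metric.infDist z E with hdd
      obtain ⟨M, hM⟩ := hEc.exists_bound_of_continuousOn hD2c.continuousOn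
      have hM0 : 0 ≤ max M 0 := le_max_right _ _
      refine ContinuousAt.continuousWithinAt ?_
      refine MeasureTheory.continuousAt_of_dominated (bound := fun _ => max M 0 / (d / 2)) ?_ ?_ ?_ ?_
      · refine Eventually.of_forall fun x => Measurable.aestronglyMeasurable ?_
        exact hD2c.measurable.div (measurable_const.sub measurable_id)
      · filter_upwards [ball_mem_nhds z (show 0 < d / 2 by positivity)] with x hx
        refine (MeasureTheory.ae_restrict_iff' hEc.measurableSet).2 (Eventually.of_forall fun w hw => ?_)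
        rw [norm_div]
        have h1 : d ≤ ‖z - w‖ := by
          rw [← dist_eq_norm]
          exact Metric.infDist_le_dist_of_mem hw
        have h2 : ‖z - w‖ ≤ ‖x - w‖ + ‖x - z‖ := by
          rw [← dist_eq_norm, ← dist_eq_norm, ← dist_eq_norm, dist_comm x z, add_comm]
          exact dist_triangle _ _ _
        rw [mem_ball, dist_eq_norm] at hx
        have h3 : d / 2 ≤ ‖x - w‖ := by linarith
        exact div_le_div₀ hM0 ((hM w hw).trans (le_max_left _ _)) (by positivity) h3
      · exact MeasureTheory.integrableOn_const (by exact hEc.measure_lt_top.ne)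
      · refine (MeasureTheory.ae_restrict_iff' hEc.measurableSet).2 (Eventually.of_forall fun w hw => ?_)
        have h1 : z - w ≠ 0 := by
          intro h0
          rw [sub_eq_zero] at h0
          exact Set.disjoint_left.1 hEK hw (h0 ▸ hz)
        exact continuousAt_const.div (continuousAt_id.sub continuousAt_const) h1
    · rw [hd]
      simp only [MeasureTheory.Measure.restrict_empty, MeasureTheory.integral_zero_measure]
      exact continuousWithinAt_const
  obtain ⟨p, hp⟩ := cauchy_approx hK hKc D2 hD2c E hEc hEK (fun z => ∫ w in E, D2 w / (z - w))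
    hcont2 (fun z hz => rfl) ε hε
  refine ⟨Polynomial.C (1 / (Real.pi : ℂ)) * p, fun z hz => ?_⟩
  rw [Polynomial.eval_mul, Polynomial.eval_C, hrep z hz]
  have h1 := hsmall z hz
  have h2 := hp z hz
  have e1 : (1 / (Real.pi : ℂ)) * p.eval z - ((1 / (Real.pi : ℂ)) * (∫ w, D1 w / (z - w)) +
      (1 / (Real.pi : ℂ)) * ∫ w in E, D2 w / (z - w)) =
      -((1 / (Real.pi : ℂ)) * (∫ w, D1 w / (z - w))) -
      (1 / (Real.pi : ℂ)) * ((∫ w in E, D2 w / (z - w)) - p.eval z) := by ring
  rw [e1]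
  have h3 : ‖(1 / (Real.pi : ℂ)) * ((∫ w in E, D2 w / (z - w)) - p.eval z)‖ ≤ ε := by
    rw [norm_mul]
    have h2' : ‖(1 / (Real.pi : ℂ))‖ ≤ 1 := by
      rw [norm_div, norm_one, Complex.norm_real, Real.norm_eq_abs, abs_of_pos Real.pi_pos]
      rw [div_le_one Real.pi_pos]
      linarith [Real.pi_gt_three]
    calc _ ≤ 1 * ε := mul_le_mul h2' h2.le (norm_nonneg _) zero_le_one
      _ = ε := one_mul _
  refine (norm_sub_le _ _).trans ?_
  rw [norm_neg]
  exact add_le_add h1 h3

end Pool.Agent.V1173.Chordal
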