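import Mathlib

/-!
# Dividing out finitely many zeros by a polynomial
-/

set_option autoImplicit false
set_option linter.all false

open Complex Filter Topology Set Metric

namespace Pool.Agent.V1173.Chordal

theorem divide (f : ℂ → ℂ) (s : Finset ℂ) :
    (∀ a ∈ s, AnalyticAt ℂ f a ∧ ¬ ∀ᶠ z in 𝓝 a, f z = 0) →
    ∃ (q : Polynomial ℂ) (G : ℂ → ℂ), (∀ z, q.eval z = 0 → z ∈ s) ∧
      (∀ z, f z = q.eval z * G z) ∧ (∀ a ∈ s, AnalyticAt ℂ G a ∧ G a ≠ 0) := by
  classical
  refine Finset.induction_on s ?_ ?_
  · intro _
    refine ⟨1, f, fun z hz => ?_, fun z => ?_, fun a ha => absurd ha (Finset.notMem_empty a)⟩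
    · rw [Polynomial.eval_one] at hz
      exact absurd hz one_ne_zero
    · rw [Polynomial.eval_one, one_mul]
  · intro a s has ih hs
    obtain ⟨q, G, hq, hG, hGs⟩ := ih (fun b hb => hs b (Finset.mem_insert_of_mem hb))
    obtain ⟨hfa, hfz⟩ := hs a (Finset.mem_insert_self a s)
    have hqa : q.eval a ≠ 0 := fun h => has (hq a h)
    have hqc : ContinuousAt (fun z => q.eval z) a := q.continuous.continuousAt
    have hqev : ∀ᶠ z in 𝓝 a, q.eval z ≠ 0 := hqc.eventually_ne hqa
    have hqan : AnalyticAt ℂ (fun z => q.eval z) a :=
      (q.differentiable.differentiableOn (s := univ)).analyticAt univ_mem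
    have hGa : AnalyticAt ℂ G a := by
      refine (hfa.div hqan hqa).congr ?_
      filter_upwards [hqev] with z hz
      simp only [Pi.div_apply]
      rw [hG z, mul_div_cancel_left₀ _ hz]
    have hGz : ¬ ∀ᶠ z in 𝓝 a, G z = 0 := by
      intro h
      apply hfz
      filter_upwards [h] with z hz
      rw [hG z, hz, mul_zero]
    obtain ⟨n, g, hg, hga, hgn⟩ := hGa.exists_eventuallyEq_pow_smul_nonzero_iff.2 hGz
    refine ⟨q * (Polynomial.X - Polynomial.C a) ^ n,
      fun z => if z = a then g a else G z / (z - a) ^ n, ?_, ?_, ?_⟩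
    · intro z hz
      rw [Polynomial.eval_mul, mul_eq_zero] at hz
      rcases hz with h | h
      · exact Finset.mem_insert_of_mem (hq z h)
      · rw [Polynomial.eval_pow, Polynomial.eval_sub, Polynomial.eval_X, Polynomial.eval_C] at h
        have h1 := eq_zero_of_pow_eq_zero h
        rw [sub_eq_zero] at h1
        rw [h1]
        exact Finset.mem_insert_self a s
    · intro z
      rw [Polynomial.eval_mul, Polynomial.eval_pow, Polynomial.eval_sub, Polynomial.eval_X,
        Polynomial.eval_C]
      beta_reduce
      by_cases hz : z = a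
      · rw [hz, if_pos rfl, hG a]
        have h1 := hgn.self_of_nhds
        rw [h1, smul_eq_mul]
        ring
      · rw [if_neg hz, hG z]
        have h1 : (z - a) ^ n ≠ 0 := pow_ne_zero _ (sub_ne_zero.2 hz)
        field_simp
    · intro b hb
      by_cases hba : b = a
      · have hev : (fun z => if z = a then g a else G z / (z - a) ^ n) =ᶠ[𝓝 a] g := by
          filter_upwards [hgn] with z hz
          by_cases hza : z = a
          · rw [hza, if_pos rfl]
          · rw [if_neg hza, hz, smul_eq_mul]
            have h1 : (z - a) ^ n ≠ 0 := pow_ne_zero _ (sub_ne_zero.2 hza)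
            field_simp
        rw [hba]
        refine ⟨hg.congr hev.symm, ?_⟩
        simp only [if_true]
        exact hga
      · have hbs : b ∈ s := by
          rcases Finset.mem_insert.1 hb with h | h
          · exact absurd h hba
          · exact h
        obtain ⟨h1, h2⟩ := hGs b hbs
        have hne : (b - a) ^ n ≠ 0 := pow_ne_zero _ (sub_ne_zero.2 hba)
        have hev : (fun z => if z = a then g a else G z / (z - a) ^ n) =ᶠ[𝓝 b]
            fun z => G z / (z - a) ^ n := by
          filter_upwards [isOpen_ne.mem_nhds hba] with z hz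
          rw [if_neg hz]
        refine ⟨?_, ?_⟩
        · refine AnalyticAt.congr ?_ hev.symm
          exact h1.div (by fun_prop) hne
        · simp only [if_neg hba]
          exact div_ne_zero h2 hne

end Pool.Agent.V1173.Chordal
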