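import Pool.Agent.V1173.Chordal.Holes
import Pool.Agent.V1173.Chordal.Dbar

/-!
# Chordal approximation by polynomials
-/

set_option autoImplicit false
set_option linter.all false

open Complex Filter Topology Set Metric OnePoint Pool.Agent.Y834.UT ZFM

namespace Pool.Agent.V1173.Chordal

variable {L : Set ℂ} {f : ℂ → OnePoint ℂ}

/-- On the set where `|f| ≥ c` the function `1/f` is a limit of `Q/q` with `Q` free of zeros. -/
theorem Hyp.inv_approx (h : Hyp L f) {c : ℝ} (hc : 0 < c) {η : ℝ} (hη : 0 < η) :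
    ∃ q Q : Polynomial ℂ, (∀ z ∈ Bg L f c, Q.eval z ≠ 0 ∧ q.eval z ≠ 0) ∧
      ∀ z ∈ Bg L f c, ‖Q.eval z / q.eval z - (fin (f z))⁻¹‖ < η := by
  classical
  have hK := h.isCompact_Bg c
  have hKL : Bg L f c ⊆ L := fun z hz => hz.1
  have hHL : hull (Bg L f c) ⊆ L := hull_subset h.comp h.conn hKL
  have hfz := h.finite_zeros hc
  set s : Finset ℂ := hfz.toFinset with hs
  have hmem : ∀ z, z ∈ s ↔ z ∈ hull (Bg L f c) ∧ f z = ((0 : ℂ) : OnePoint ℂ) := by
    intro z
    rw [hs, Set.Finite.mem_toFinset]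
    exact Iff.rfl
  have hsK : ∀ z ∈ s, z ∉ Bg L f c := by
    rintro z hz ⟨_, h1 | h1⟩
    · rw [((hmem z).1 hz).2] at h1
      exact OnePoint.coe_ne_infty _ h1
    · rw [((hmem z).1 hz).2, fin_coe, norm_zero] at h1
      linarith
  obtain ⟨q, G, hq, hG, hGs⟩ := divide (fun z => fin (f z)) s (fun a ha => by
    obtain ⟨h1, h2, h3, h4⟩ := h.hole_Bg hc ((hmem a).1 ha).1 (hsK a ha)
    exact ⟨h1, h4⟩)
  have hqK : ∀ z ∈ Bg L f c, q.eval z ≠ 0 := fun z hz h0 => hsK z (hq z h0) hz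
  -- formula off `s`
  have hform : ∀ z, q.eval z ≠ 0 → (G z)⁻¹ = q.eval z * (fin (f z))⁻¹ := by
    intro z hz
    rw [hG z, mul_inv, mul_inv_cancel_left₀ hz]
  have hne0 : ∀ z ∈ hull (Bg L f c), z ∉ s → f z ≠ ((0 : ℂ) : OnePoint ℂ) := by
    intro z hz hzs h0
    exact hzs ((hmem z).2 ⟨hz, h0⟩)
  have hqev : ∀ z, z ∉ s → ∀ᶠ w in 𝓝 z, q.eval w ≠ 0 := by
    intro z hz
    exact q.continuous.continuousAt.eventually_ne (fun h0 => hz (hq z h0))
  have hanG : ∀ z ∈ s, AnalyticAt ℂ (fun w => (G w)⁻¹) z := by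
    intro z hz
    exact (hGs z hz).1.inv (hGs z hz).2
  have hgc : ContinuousOn (fun w => (G w)⁻¹) (hull (Bg L f c)) := by
    intro z hz
    by_cases hzs : z ∈ s
    · exact (hanG z hzs).continuousAt.continuousWithinAt
    · have h1 := h.cont_inv (hHL hz) (hne0 z hz hzs)
      have h2 : ContinuousWithinAt (fun w => q.eval w * (fin (f w))⁻¹) L z :=
        q.continuous.continuousAt.continuousWithinAt.mul h1
      refine (h2.mono hHL).congr_of_eventuallyEq ?_ ?_
      · filter_upwards [mem_nhdsWithin_of_mem_nhds (hqev z hzs)] with w hw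
        exact hform w hw
      · exact hform z (fun h0 => hzs (hq z h0))
  have hintL : interior (hull (Bg L f c)) ⊆ interior L := interior_mono hHL
  -- the values on an open preconnected set
  have hne1 : ∀ z ∈ hull (Bg L f c), f z ≠ ∞ → (G z)⁻¹ ≠ 0 := by
    intro z hz hf
    by_cases hzs : z ∈ s
    · exact inv_ne_zero (hGs z hzs).2
    · rw [hform z (fun h0 => hzs (hq z h0))]
      refine mul_ne_zero (fun h0 => hzs (hq z h0)) (inv_ne_zero ?_)
      intro h0
      apply hne0 z hz hzs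
      rw [← coe_fin hf, h0]
  have hz1 : ∀ z ∈ hull (Bg L f c), f z = ∞ → (G z)⁻¹ = 0 := by
    intro z hz hf
    have hzs : z ∉ s := by
      intro hzs
      rw [((hmem z).1 hzs).2] at hf
      exact OnePoint.coe_ne_infty _ hf
    rw [hform z (fun h0 => hzs (hq z h0)), hf, fin_infty, inv_zero, mul_zero]
  have hgd : DifferentiableOn ℂ (fun w => (G w)⁻¹) (interior (hull (Bg L f c))) := by
    intro z hz
    apply DifferentiableAt.differentiableWithinAt
    obtain ⟨r, hr, hball⟩ := Metric.isOpen_iff.1 isOpen_interior z hz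
    rcases h.dich (ball z r) isOpen_ball (convex_ball z r).isPreconnected (hball.trans hintL) with
      h1 | ⟨h1, h2⟩
    · have hev : (fun w => (G w)⁻¹) =ᶠ[𝓝 z] fun _ => (0 : ℂ) := by
        filter_upwards [ball_mem_nhds z hr] with w hw
        exact hz1 w (interior_subset (hball hw)) (h1 w hw)
      exact (differentiableAt_const (0 : ℂ)).congr_of_eventuallyEq hev
    · by_cases hzs : z ∈ s
      · exact (hanG z hzs).differentiableAt
      · have h3 : DifferentiableAt ℂ (fun z => fin (f z)) z :=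
          h2.differentiableAt (ball_mem_nhds z hr)
        have h4 : fin (f z) ≠ 0 := by
          intro h0
          apply hne0 z (interior_subset hz) hzs
          rw [← coe_fin (h1 z (mem_ball_self hr)), h0]
        have h5 : DifferentiableAt ℂ (fun w => q.eval w * (fin (f w))⁻¹) z :=
          q.differentiableAt.mul (h3.inv h4)
        refine h5.congr_of_eventuallyEq ?_
        filter_upwards [hqev z hzs] with w hw
        exact hform w hw
  have hnz : ∀ V : Set ℂ, IsOpen V → IsPreconnected V → V ⊆ interior (hull (Bg L f c)) →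
      (∀ z ∈ V, (G z)⁻¹ ≠ 0) ∨ (∀ z ∈ V, (G z)⁻¹ = 0) := by
    intro V hVo hVc hV
    rcases h.dich V hVo hVc (hV.trans hintL) with h1 | ⟨h1, h2⟩
    · right
      intro z hz
      exact hz1 z (interior_subset (hV hz)) (h1 z hz)
    · left
      intro z hz
      exact hne1 z (interior_subset (hV hz)) (h1 z hz)
  -- lower bound of `q`
  obtain ⟨c0, hc0, hc0q⟩ : ∃ c0 : ℝ, 0 < c0 ∧ ∀ z ∈ Bg L f c, c0 ≤ ‖q.eval z‖ :=
    hK.exists_forall_le' (q.continuous.norm.continuousOn) (fun z hz => norm_pos_iff.2 (hqK z hz))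
  have hHc := isCompact_hull hK
  have hHo := isConnected_compl_hull hK
  obtain ⟨Q, hQ0, hQ⟩ := zero_free' hHc hHo (fun w => (G w)⁻¹) hgc hgd hnz
    (fun η hη => ZFM.mergelyan hHc hHo _ hgc hgd η hη) (c0 * η) (by positivity)
  refine ⟨q, Q, fun z hz => ⟨hQ0 z (subset_hull _ hz), hqK z hz⟩, fun z hz => ?_⟩
  have h1 := hQ z (subset_hull _ hz)
  have h2 := hc0q z hz
  have h3 := hqK z hz
  have h4 : Q.eval z / q.eval z - (fin (f z))⁻¹ = (Q.eval z - (G z)⁻¹) / q.eval z := by
    rw [hform z h3]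
    field_simp
  rw [h4, norm_div, div_lt_iff₀ (norm_pos_iff.2 h3)]
  calc _ < c0 * η := h1
    _ ≤ η * ‖q.eval z‖ := by nlinarith

theorem Hyp.approx (h : Hyp L f) {ε : ℝ} (hε : 0 < ε) :
    ∃ p : Polynomial ℂ, ∀ z ∈ L, chi ((p.eval z : ℂ) : OnePoint ℂ) (f z) < ε := by
  obtain ⟨r, hr0, hLr⟩ : ∃ r : ℝ, 0 < r ∧ L ⊆ ball 0 r := by
    obtain ⟨r, hr⟩ := h.comp.isBounded.subset_ball 0
    exact ⟨max r 1, lt_of_lt_of_le one_pos (le_max_right _ _),
      hr.trans (ball_subset_ball (le_max_left _ _))⟩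
  obtain ⟨C, hC, happ⟩ := approx_dbar h.comp h.conn
  -- cut-off
  have hA0 := h.isCompact_Sm 1
  have hA1 := h.isCompact_Bg 2
  have hdisj : Disjoint (Sm L f 1) (Bg L f 2) := by
    rw [Set.disjoint_left]
    rintro z ⟨_, h1, h2⟩ ⟨_, h3 | h3⟩
    · exact h1 h3
    · linarith
  obtain ⟨t, ht0, ht1, htI⟩ := exists_contMDiffMap_zero_one_nhds_of_isClosed
    (modelWithCornersSelf ℝ ℂ) (n := (⊤ : ℕ∞)) hA0.isClosed hA1.isClosed hdisj
  have htc : ContDiff ℝ ((⊤ : ℕ∞) : WithTop ℕ∞) (fun z => t z) :=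
    contMDiff_iff_contDiff.1 t.contMDiff
  obtain ⟨N0, hN0, hA0N, hN0t⟩ := eventually_nhdsSet_iff_exists.1 ht0
  obtain ⟨N1, hN1, hA1N, hN1t⟩ := eventually_nhdsSet_iff_exists.1 ht1
  have htc' : ContDiff ℝ ((⊤ : ℕ∞) : WithTop ℕ∞) (fun w => ((t w : ℝ) : ℂ)) :=
    (Complex.ofRealCLM.contDiff).comp htc
  have htc1 : ContDiff ℝ 1 (fun w => ((t w : ℝ) : ℂ)) := htc'.of_le (by exact_mod_cast le_top)
  have htd := ZFM.J_n2.cut_smooth_dbar htc'
  obtain ⟨M0, hM0⟩ := (isCompact_closedBall (0 : ℂ) r).exists_bound_of_continuousOn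
    htd.continuous.continuousOn
  set M : ℝ := max M0 1 with hM
  have hMpos : 0 < M := lt_of_lt_of_le one_pos (le_max_right _ _)
  have hMb : ∀ z ∈ ball (0 : ℂ) r, ‖dbar (fun w => ((t w : ℝ) : ℂ)) z‖ ≤ M :=
    fun z hz => (hM0 z (ball_subset_closedBall hz)).trans (le_max_left _ _)
  -- the small parameter
  set K1 : ℝ := 2 * C * M + 2 with hK1
  have hK1p : 2 ≤ K1 := by
    have : 0 < C * M := by positivity
    rw [hK1]; linarith
  obtain ⟨δ, hδ, hδ1, hδ2⟩ : ∃ δ : ℝ, 0 < δ ∧ K1 * δ < ε ∧ K1 * δ ≤ 1 / 3 := by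
    refine ⟨min (ε / (2 * K1)) (1 / (3 * K1)), by positivity, ?_, ?_⟩
    · have h1 : K1 * min (ε / (2 * K1)) (1 / (3 * K1)) ≤ K1 * (ε / (2 * K1)) :=
        mul_le_mul_of_nonneg_left (min_le_left _ _) (by linarith)
      have h2 : K1 * (ε / (2 * K1)) = ε / 2 := by field_simp
      linarith
    · have h1 : K1 * min (ε / (2 * K1)) (1 / (3 * K1)) ≤ K1 * (1 / (3 * K1)) :=
        mul_le_mul_of_nonneg_left (min_le_right _ _) (by linarith)
      have h2 : K1 * (1 / (3 * K1)) = 1 / 3 := by field_simp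
      linarith
  have hδ3 : δ ≤ 1 / 6 := by nlinarith
  -- the polynomial on the set where `f` is small
  obtain ⟨P, hP⟩ : ∃ P : Polynomial ℂ, ∀ z ∈ Sm L f 2, ‖P.eval z - fin (f z)‖ < δ := by
    refine ZFM.mergelyan (h.isCompact_Sm 2) (h.conn_Sm 2) (fun z => fin (f z)) ?_ ?_ δ hδ
    · intro z hz
      exact (h.cont_fin hz.1 hz.2.1).mono fun w hw => hw.1
    · intro z hz
      apply DifferentiableAt.differentiableWithinAt
      obtain ⟨ρ, hρ, hball⟩ := Metric.isOpen_iff.1 isOpen_interior z hz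
      have hsub : interior (Sm L f 2) ⊆ interior L := interior_mono fun w hw => hw.1
      rcases h.dich (ball z ρ) isOpen_ball (convex_ball z ρ).isPreconnected (hball.trans hsub) with
        h1 | ⟨h1, h2⟩
      · exact absurd (h1 z (mem_ball_self hρ)) (interior_subset hz).2.1
      · exact h2.differentiableAt (ball_mem_nhds z hρ)
  -- the rational function on the set where `f` is large
  obtain ⟨q, Q, hQ0, hQ⟩ := h.inv_approx one_pos (η := δ / 8) (by positivity)
  set hh : ℂ → ℂ := fun z => q.eval z / Q.eval z with hhh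
  set F0 : ℂ → ℂ := fun z => P.eval z + ((t z : ℝ) : ℂ) * (hh z - P.eval z) with hF0
  have hclose : ∀ z ∈ L, f z ≠ ∞ → 1 ≤ ‖fin (f z)‖ → ‖fin (f z)‖ ≤ 2 →
      ‖hh z - fin (f z)‖ ≤ δ := by
    intro z hz h1 h2 h3
    have hzB : z ∈ Bg L f 1 := ⟨hz, Or.inr h2⟩
    obtain ⟨hQz, hqz⟩ := hQ0 z hzB
    have h4 := hQ z hzB
    obtain ⟨b, hb⟩ : ∃ b, b = fin (f z) := ⟨_, rfl⟩
    obtain ⟨y, hy⟩ : ∃ y, y = Q.eval z / q.eval z := ⟨_, rfl⟩
    rw [← hb] at h2 h3 h4 ⊢
    rw [← hy] at h4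
    have hhy : hh z = y⁻¹ := by
      rw [hy, inv_div]
    rw [hhy]
    have hb0 : b ≠ 0 := by
      intro h0
      rw [h0, norm_zero] at h2
      norm_num at h2
    have hy0 : y ≠ 0 := by
      rw [hy]
      exact div_ne_zero hQz hqz
    have hbi : (1 : ℝ) / 2 ≤ ‖b⁻¹‖ := by
      rw [norm_inv, ← one_div]
      exact one_div_le_one_div_of_le (by linarith) h3
    have hyl : (1 : ℝ) / 4 ≤ ‖y‖ := by
      have h5 : ‖b⁻¹‖ ≤ ‖y‖ + ‖y - b⁻¹‖ := by
        have : b⁻¹ = y - (y - b⁻¹) := by ring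
        calc ‖b⁻¹‖ = ‖y - (y - b⁻¹)‖ := by rw [← this]
          _ ≤ _ := norm_sub_le _ _
      linarith
    have e : y⁻¹ - b = -(b / y) * (y - b⁻¹) := by
      field_simp
      ring
    rw [e, norm_mul, norm_neg, norm_div]
    have h6 : ‖b‖ / ‖y‖ ≤ 8 := by
      rw [div_le_iff₀ (by linarith)]
      linarith
    calc ‖b‖ / ‖y‖ * ‖y - b⁻¹‖ ≤ 8 * (δ / 8) :=
          mul_le_mul h6 h4.le (norm_nonneg _) (by norm_num)
      _ = δ := by ring
  -- the open set
  set W : Set ℂ := {z | ‖q.eval z - P.eval z * Q.eval z‖ < 2 * δ * ‖Q.eval z‖} with hW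
  have hWo : IsOpen W := by
    rw [hW]
    exact isOpen_lt ((q.continuous.sub (P.continuous.mul Q.continuous)).norm)
      (continuous_const.mul Q.continuous.norm)
  have hWQ : ∀ z ∈ W, Q.eval z ≠ 0 ∧ ‖hh z - P.eval z‖ < 2 * δ := by
    intro z hz
    have h1 : ‖q.eval z - P.eval z * Q.eval z‖ < 2 * δ * ‖Q.eval z‖ := hz
    have h2 : Q.eval z ≠ 0 := by
      intro h0
      rw [h0, norm_zero, mul_zero, mul_zero] at h1
      exact absurd h1 (not_lt.2 (norm_nonneg _))
    refine ⟨h2, ?_⟩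
    have h3 : hh z - P.eval z = (q.eval z - P.eval z * Q.eval z) / Q.eval z := by
      simp only [hhh]
      field_simp
    rw [h3, norm_div, div_lt_iff₀ (norm_pos_iff.2 h2)]
    exact h1
  have hQo : IsOpen {z : ℂ | Q.eval z ≠ 0} := isOpen_ne_fun Q.continuous continuous_const
  set U : Set ℂ := ball 0 r ∩ (N0 ∪ (N1 ∩ {z : ℂ | Q.eval z ≠ 0}) ∪ W) with hU
  have hUo : IsOpen U := isOpen_ball.inter ((hN0.union (hN1.inter hQo)).union hWo)
  have hLU : L ⊆ U := by
    intro z hz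
    refine ⟨hLr hz, ?_⟩
    by_cases h1 : z ∈ Bg L f 2
    · left; right
      refine ⟨hA1N h1, (hQ0 z ⟨hz, ?_⟩).1⟩
      rcases h1.2 with h2 | h2
      · exact Or.inl h2
      · right; linarith
    · have h2 : f z ≠ ∞ := fun h0 => h1 ⟨hz, Or.inl h0⟩
      have h3 : ‖fin (f z)‖ < 2 := by
        by_contra h0
        exact h1 ⟨hz, Or.inr (not_lt.1 h0)⟩
      by_cases h4 : ‖fin (f z)‖ ≤ 1
      · left; left
        exact hA0N ⟨hz, h2, h4⟩
      · right
        push Not at h4
        have h5 := hclose z hz h2 h4.le h3.le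
        have h6 := hP z ⟨hz, h2, h3.le⟩
        have h7 := (hQ0 z ⟨hz, Or.inr h4.le⟩).1
        have h8 : ‖hh z - P.eval z‖ < 2 * δ := by
          have e : hh z - P.eval z = (hh z - fin (f z)) - (P.eval z - fin (f z)) := by ring
          rw [e]
          refine (norm_sub_le _ _).trans_lt ?_
          linarith
        change ‖q.eval z - P.eval z * Q.eval z‖ < 2 * δ * ‖Q.eval z‖
        have h9 : hh z - P.eval z = (q.eval z - P.eval z * Q.eval z) / Q.eval z := by
          simp only [hhh]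
          field_simp
        rw [h9, norm_div, div_lt_iff₀ (norm_pos_iff.2 h7)] at h8
        exact h8
  have hPan : ∀ z, DifferentiableAt ℂ (fun w => P.eval w) z := fun z => P.differentiableAt
  have hhan : ∀ z, Q.eval z ≠ 0 → AnalyticAt ℂ hh z := by
    intro z hz
    have h1 : AnalyticAt ℂ (fun w => q.eval w) z :=
      (q.differentiable.differentiableOn (s := univ)).analyticAt univ_mem
    have h2 : AnalyticAt ℂ (fun w => Q.eval w) z :=
      (Q.differentiable.differentiableOn (s := univ)).analyticAt univ_mem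
    exact h1.div h2 hz
  have hPc : ∀ z, ContDiffAt ℝ 1 (fun w => P.eval w) z := by
    intro z
    have h1 : AnalyticAt ℂ (fun w => P.eval w) z :=
      (P.differentiable.differentiableOn (s := univ)).analyticAt univ_mem
    exact h1.contDiffAt.restrict_scalars ℝ
  -- off the zeros of `Q`
  have hQpart : ∀ z, Q.eval z ≠ 0 → ContDiffAt ℝ 1 F0 z ∧
      dbar F0 z = dbar (fun w => ((t w : ℝ) : ℂ)) z * (hh z - P.eval z) := by
    intro z hz
    have h1 : ContDiffAt ℝ 1 hh z := (hhan z hz).contDiffAt.restrict_scalars ℝ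
    have h2 : ContDiffAt ℝ 1 (fun w => hh w - P.eval w) z := h1.sub (hPc z)
    have h3 : ContDiffAt ℝ 1 (fun w => ((t w : ℝ) : ℂ) * (hh w - P.eval w)) z :=
      htc1.contDiffAt.mul h2
    refine ⟨(hPc z).add h3, ?_⟩
    have h4 : dbar F0 z = dbar (fun w => P.eval w) z +
        dbar (fun w => ((t w : ℝ) : ℂ) * (hh w - P.eval w)) z := by
      unfold dbar
      have h5 : fderiv ℝ F0 z = fderiv ℝ (fun w => P.eval w) z +
          fderiv ℝ (fun w => ((t w : ℝ) : ℂ) * (hh w - P.eval w)) z :=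
        fderiv_fun_add ((hPc z).differentiableAt (by norm_num)) (h3.differentiableAt (by norm_num))
      rw [h5]
      simp only [ContinuousLinearMap.add_apply]
      ring
    have h6 : dbar (fun w => hh w - P.eval w) z = 0 :=
      dbar_holo ((hhan z hz).differentiableAt.sub (hPan z))
    rw [h4, dbar_holo (hPan z), dbar_mul (htc1.contDiffAt.differentiableAt (by norm_num))
      (h2.differentiableAt (by norm_num)), h6]
    ring
  have hN0part : ∀ z ∈ N0, F0 =ᶠ[𝓝 z] fun w => P.eval w := by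
    intro z hz
    filter_upwards [hN0.mem_nhds hz] with w hw
    simp only [hF0]
    rw [hN0t w hw, Complex.ofReal_zero, zero_mul, add_zero]
  have hβ : (0 : ℝ) ≤ 2 * δ * M := by positivity
  obtain ⟨p, hp⟩ := happ U F0 (2 * δ * M) hUo hLU hβ (by
      rintro z ⟨_, (hz | hz) | hz⟩
      · exact (hPc z).congr_of_eventuallyEq (hN0part z hz)
      · exact (hQpart z hz.2).1
      · exact (hQpart z (hWQ z hz).1).1) (by
      rintro z ⟨hzr, (hz | hz) | hz⟩
      · rw [dbar_congr (hN0part z hz), dbar_holo (hPan z), norm_zero]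
        exact hβ
      · rw [(hQpart z hz.2).2]
        have h1 : (fun w => ((t w : ℝ) : ℂ)) =ᶠ[𝓝 z] fun _ => (1 : ℂ) := by
          filter_upwards [hN1.mem_nhds hz.1] with w hw
          rw [hN1t w hw, Complex.ofReal_one]
        rw [dbar_congr h1, dbar_holo (differentiableAt_const _), zero_mul, norm_zero]
        exact hβ
      · rw [(hQpart z (hWQ z hz).1).2, norm_mul]
        calc _ ≤ M * (2 * δ) := mul_le_mul (hMb z hzr) (hWQ z hz).2.le (norm_nonneg _) hMpos.le
          _ = 2 * δ * M := by ring) δ hδ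
  refine ⟨p, fun z hz => ?_⟩
  have hT : ‖p.eval z - F0 z‖ ≤ (K1 - 1) * δ := by
    refine (hp z hz).trans (le_of_eq ?_)
    rw [hK1]
    ring
  by_cases h1 : z ∈ Bg L f 2
  · -- `f` large
    have hzB : z ∈ Bg L f 1 := by
      refine ⟨hz, ?_⟩
      rcases h1.2 with h2 | h2
      · exact Or.inl h2
      · right; linarith
    obtain ⟨hQz, hqz⟩ := hQ0 z hzB
    have h4 := hQ z hzB
    have hF0z : F0 z = hh z := by
      simp only [hF0]
      rw [hN1t z (hA1N h1), Complex.ofReal_one]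
      ring
    rw [hF0z] at hT
    obtain ⟨x, hx⟩ : ∃ x, x = (fin (f z))⁻¹ := ⟨_, rfl⟩
    obtain ⟨y, hy⟩ : ∃ y, y = Q.eval z / q.eval z := ⟨_, rfl⟩
    have hxn : ‖x‖ ≤ 1 / 2 := by
      rw [hx]
      rcases h1.2 with h2 | h2
      · rw [h2, fin_infty, inv_zero, norm_zero]
        norm_num
      · rw [norm_inv, ← one_div]
        exact one_div_le_one_div_of_le (by norm_num) h2
    rw [← hx, ← hy] at h4
    have hy0 : y ≠ 0 := by
      rw [hy]
      exact div_ne_zero hQz hqz
    have hhy : hh z = y⁻¹ := by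
      rw [hy, inv_div]
    have hyn : ‖y‖ ≤ 3 / 4 := by
      have h5 : ‖y‖ ≤ ‖x‖ + ‖y - x‖ := by
        have : y = x + (y - x) := by ring
        calc ‖y‖ = ‖x + (y - x)‖ := by rw [← this]
          _ ≤ _ := norm_add_le _ _
      linarith
    have hhn : (4 : ℝ) / 3 ≤ ‖hh z‖ := by
      rw [hhy, norm_inv]
      have h6 : 0 < ‖y‖ := norm_pos_iff.2 hy0
      have h7 : ((3 : ℝ) / 4)⁻¹ ≤ ‖y‖⁻¹ := by gcongr
      have h8 : ((3 : ℝ) / 4)⁻¹ = 4 / 3 := by norm_num
      linarith
    have hpn : (1 : ℝ) ≤ ‖p.eval z‖ := by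
      have h5 : ‖hh z‖ ≤ ‖p.eval z‖ + ‖p.eval z - hh z‖ := by
        have : hh z = p.eval z - (p.eval z - hh z) := by ring
        calc ‖hh z‖ = ‖p.eval z - (p.eval z - hh z)‖ := by rw [← this]
          _ ≤ _ := norm_sub_le _ _
      have h6 : (K1 - 1) * δ ≤ K1 * δ := by nlinarith
      linarith
    have hp0 : p.eval z ≠ 0 := by
      intro h0
      rw [h0, norm_zero] at hpn
      norm_num at hpn
    have hfz0 : f z ≠ ((0 : ℂ) : OnePoint ℂ) := by
      intro h0
      rcases h1.2 with h2 | h2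
      · rw [h0] at h2
        exact OnePoint.coe_ne_infty _ h2
      · rw [h0, fin_coe, norm_zero] at h2
        norm_num at h2
    refine (chi_le_inv hp0 hfz0).trans_lt ?_
    rw [← hx]
    have h7 : ‖(p.eval z)⁻¹ - y‖ ≤ (K1 - 1) * δ := by
      have hh0 : hh z ≠ 0 := by
        rw [hhy]; exact inv_ne_zero hy0
      have e : (p.eval z)⁻¹ - y = -((p.eval z - hh z) / (p.eval z * hh z)) := by
        have : y = (hh z)⁻¹ := by rw [hhy, inv_inv]
        rw [this]
        field_simp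
        ring
      rw [e, norm_neg, norm_div, norm_mul]
      have h8 : (1 : ℝ) ≤ ‖p.eval z‖ * ‖hh z‖ := by nlinarith
      exact (div_le_self (norm_nonneg _) h8).trans hT
    have e : (p.eval z)⁻¹ - x = ((p.eval z)⁻¹ - y) + (y - x) := by ring
    rw [e]
    refine (norm_add_le _ _).trans_lt ?_
    have : (K1 - 1) * δ + δ / 8 < ε := by
      have : (K1 - 1) * δ + δ / 8 ≤ K1 * δ := by nlinarith
      linarith
    linarith
  · have h2 : f z ≠ ∞ := fun h0 => h1 ⟨hz, Or.inl h0⟩
    have h3 : ‖fin (f z)‖ < 2 := by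
      by_contra h0
      exact h1 ⟨hz, Or.inr (not_lt.1 h0)⟩
    have h6 := hP z ⟨hz, h2, h3.le⟩
    have hFz : ‖F0 z - fin (f z)‖ ≤ δ := by
      by_cases h4 : ‖fin (f z)‖ ≤ 1
      · rw [(hN0part z (hA0N ⟨hz, h2, h4⟩)).self_of_nhds]
        exact h6.le
      · push Not at h4
        have h5 := hclose z hz h2 h4.le h3.le
        have e : F0 z - fin (f z) = ((1 - t z : ℝ) : ℂ) * (P.eval z - fin (f z)) +
            ((t z : ℝ) : ℂ) * (hh z - fin (f z)) := by
          simp only [hF0]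
          push_cast
          ring
        rw [e]
        refine (norm_add_le _ _).trans ?_
        rw [norm_mul, norm_mul, Complex.norm_real, Complex.norm_real,
          Real.norm_of_nonneg (by linarith [(htI z).2]), Real.norm_of_nonneg (htI z).1]
        have h7 := (htI z).1
        have h8 := (htI z).2
        nlinarith
    rw [← coe_fin h2]
    refine (chi_le_dist _ _).trans_lt ?_
    have e : p.eval z - fin (f z) = (p.eval z - F0 z) + (F0 z - fin (f z)) := by ring
    rw [e]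
    refine (norm_add_le _ _).trans_lt ?_
    have : (K1 - 1) * δ + δ = K1 * δ := by ring
    linarith

end Pool.Agent.V1173.Chordal
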