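import Pool.Agent.V1173.Chordal.Sphere
import Pool.Agent.V1173.Chordal.Divide
import Pool.Agent.Y834.UT.Clo

/-!
# The sets where `f` is small or large, and their hulls
-/

set_option autoImplicit false
set_option linter.all false

open Complex Filter Topology Set Metric OnePoint Pool.Agent.Y834.UT

namespace Pool.Agent.V1173.Chordal

/-- Hypotheses on `f` used in the approximation theorem -/
structure Hyp (L : Set ℂ) (f : ℂ → OnePoint ℂ) : Prop where
  comp : IsCompact L
  conn : IsConnected Lᶜ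
  cont : ContinuousOn f L
  dich : ∀ V : Set ℂ, IsOpen V → IsPreconnected V → V ⊆ interior L →
    (∀ z ∈ V, f z = ∞) ∨ ((∀ z ∈ V, f z ≠ ∞) ∧ DifferentiableOn ℂ (fun z => fin (f z)) V)

def Sm (L : Set ℂ) (f : ℂ → OnePoint ℂ) (c : ℝ) : Set ℂ := {z | z ∈ L ∧ f z ≠ ∞ ∧ ‖fin (f z)‖ ≤ c}

def Bg (L : Set ℂ) (f : ℂ → OnePoint ℂ) (c : ℝ) : Set ℂ := {z | z ∈ L ∧ (f z = ∞ ∨ c ≤ ‖fin (f z)‖)}

variable {L : Set ℂ} {f : ℂ → OnePoint ℂ}

theorem Hyp.isCompact_Sm (h : Hyp L f) (c : ℝ) : IsCompact (Sm L f c) := by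
  have h1 : IsClosed (L ∩ f ⁻¹' {x : OnePoint ℂ | x ≠ ∞ ∧ ‖fin x‖ ≤ c}) :=
    h.cont.preimage_isClosed_of_isClosed h.comp.isClosed (isClosed_small c)
  exact h.comp.of_isClosed_subset h1 inter_subset_left

theorem Hyp.isCompact_Bg (h : Hyp L f) (c : ℝ) : IsCompact (Bg L f c) := by
  have h1 : IsClosed (L ∩ f ⁻¹' {x : OnePoint ℂ | x = ∞ ∨ c ≤ ‖fin x‖}) :=
    h.cont.preimage_isClosed_of_isClosed h.comp.isClosed (isClosed_big c)
  exact h.comp.of_isClosed_subset h1 inter_subset_left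

theorem Hyp.cont_fin (h : Hyp L f) {z : ℂ} (hz : z ∈ L) (hf : f z ≠ ∞) :
    ContinuousWithinAt (fun z => fin (f z)) L z :=
  (continuousAt_fin hf).comp_continuousWithinAt (h.cont z hz)

theorem Hyp.cont_inv (h : Hyp L f) {z : ℂ} (hz : z ∈ L) (hf : f z ≠ ((0 : ℂ) : OnePoint ℂ)) :
    ContinuousWithinAt (fun z => (fin (f z))⁻¹) L z :=
  (continuousAt_inv_fin hf).comp_continuousWithinAt (h.cont z hz)

/-- a bounded complementary component of a compact subset of `L` is an open subset of `L` -/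
theorem Hyp.hole (h : Hyp L f) {K : Set ℂ} (hK : IsCompact K) (hKL : K ⊆ L) {z : ℂ}
    (hz : z ∈ hull K) (hzK : z ∉ K) :
    IsOpen (connectedComponentIn Kᶜ z) ∧ z ∈ connectedComponentIn Kᶜ z ∧
    connectedComponentIn Kᶜ z ⊆ interior L ∧ connectedComponentIn Kᶜ z ⊆ hull K ∧
    (frontier (connectedComponentIn Kᶜ z)).Nonempty ∧
    Bornology.IsBounded (connectedComponentIn Kᶜ z) := by
  have hHL : hull K ⊆ L := hull_subset h.comp h.conn hKL
  have hb : Bornology.IsBounded (connectedComponentIn Kᶜ z) := by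
    rcases hz with h1 | h1
    · exact absurd h1 hzK
    · exact h1.2
  have ho : IsOpen (connectedComponentIn Kᶜ z) := hK.isClosed.isOpen_compl.connectedComponentIn
  have hzV : z ∈ connectedComponentIn Kᶜ z := mem_connectedComponentIn hzK
  have hVh : connectedComponentIn Kᶜ z ⊆ hull K := by
    intro w hw
    right
    have hwK : w ∈ Kᶜ := connectedComponentIn_subset _ _ hw
    refine ⟨hwK, ?_⟩
    rwa [← connectedComponentIn_eq hw]
  refine ⟨ho, hzV, interior_maximal (hVh.trans hHL) ho, hVh, ?_, hb⟩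
  rw [nonempty_iff_ne_empty]
  intro h0
  rw [frontier_eq_empty_iff] at h0
  rcases h0 with h0 | h0
  · rw [h0] at hzV
    exact absurd hzV (notMem_empty z)
  · rw [h0] at hb
    obtain ⟨C, hC⟩ := hb.exists_norm_le
    have h1 := hC (((|C| + 1 : ℝ)) : ℂ) (mem_univ _)
    rw [Complex.norm_real, Real.norm_of_nonneg (by positivity)] at h1
    have := le_abs_self C
    linarith

theorem Hyp.hull_Sm (h : Hyp L f) (c : ℝ) : hull (Sm L f c) = Sm L f c := by
  have hK := h.isCompact_Sm c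
  have hKL : Sm L f c ⊆ L := fun z hz => hz.1
  refine Subset.antisymm (fun z hz => ?_) (subset_hull _)
  by_contra hzK
  obtain ⟨ho, hzV, hVi, hVh, hfr, hb⟩ := h.hole hK hKL hz hzK
  set V := connectedComponentIn (Sm L f c)ᶜ z with hV
  have hVc : IsPreconnected V := isPreconnected_connectedComponentIn
  have hVK : ∀ w ∈ V, w ∉ Sm L f c := fun w hw => connectedComponentIn_subset _ _ hw
  have hfrK : frontier V ⊆ Sm L f c := frontier_comp hK z
  have hVL : V ⊆ L := hVi.trans interior_subset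
  rcases h.dich V ho hVc hVi with h1 | ⟨h1, h2⟩
  · obtain ⟨w, hw⟩ := hfr
    have hwK := hfrK hw
    have hwcl : w ∈ closure V := frontier_subset_closure hw
    have h3 := ((h.cont w hwK.1).mono hVL).mem_closure_image hwcl
    have h4 : f '' V ⊆ {∞} := by
      rintro _ ⟨x, hx, rfl⟩
      exact h1 x hx
    have h5 := closure_minimal h4 isClosed_singleton h3
    exact hwK.2.1 h5
  · have hd : DiffContOnCl ℂ (fun z => fin (f z)) V := by
      refine ⟨h2, fun w hw => ?_⟩
      rw [closure_eq_self_union_frontier] at hw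
      have hwL : w ∈ L ∧ f w ≠ ∞ := by
        rcases hw with hw | hw
        · exact ⟨hVL hw, h1 w hw⟩
        · exact ⟨(hfrK hw).1, (hfrK hw).2.1⟩
      refine (h.cont_fin hwL.1 hwL.2).mono ?_
      exact closure_minimal hVL h.comp.isClosed
    have h3 := Complex.norm_le_of_forall_mem_frontier_norm_le hb hd
      (fun w hw => (hfrK hw).2.2) (subset_closure hzV)
    exact hzK ⟨hVL hzV, h1 z hzV, h3⟩

theorem Hyp.conn_Sm (h : Hyp L f) (c : ℝ) : IsConnected (Sm L f c)ᶜ := by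
  rw [← h.hull_Sm c]
  exact isConnected_compl_hull (h.isCompact_Sm c)

/-- In a hole of the set where `|f|` is large, `f` is holomorphic and not identically zero. -/
theorem Hyp.hole_Bg (h : Hyp L f) {c : ℝ} (hc : 0 < c) {z : ℂ}
    (hz : z ∈ hull (Bg L f c)) (hzK : z ∉ Bg L f c) :
    AnalyticAt ℂ (fun z => fin (f z)) z ∧ (∀ᶠ w in 𝓝 z, w ∉ Bg L f c ∧ w ∈ hull (Bg L f c)) ∧
    f z ≠ ∞ ∧ ¬ ∀ᶠ w in 𝓝 z, fin (f w) = 0 := by
  have hK := h.isCompact_Bg c
  have hKL : Bg L f c ⊆ L := fun z hz => hz.1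
  obtain ⟨ho, hzV, hVi, hVh, hfr, hb⟩ := h.hole hK hKL hz hzK
  set V := connectedComponentIn (Bg L f c)ᶜ z with hV
  have hVc : IsPreconnected V := isPreconnected_connectedComponentIn
  have hVK : ∀ w ∈ V, w ∉ Bg L f c := fun w hw => connectedComponentIn_subset _ _ hw
  have hfrK : frontier V ⊆ Bg L f c := frontier_comp hK z
  have hVL : V ⊆ L := hVi.trans interior_subset
  have hfin : ∀ w ∈ V, f w ≠ ∞ := by
    intro w hw h0
    exact hVK w hw ⟨hVL hw, Or.inl h0⟩
  have h2 : DifferentiableOn ℂ (fun z => fin (f z)) V := by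
    rcases h.dich V ho hVc hVi with h1 | ⟨h1, h2⟩
    · exact absurd (h1 z hzV) (hfin z hzV)
    · exact h2
  refine ⟨h2.analyticAt (ho.mem_nhds hzV), ?_, hfin z hzV, ?_⟩
  · filter_upwards [ho.mem_nhds hzV] with w hw
    exact ⟨hVK w hw, hVh hw⟩
  · intro hev
    have h3 := (h2.analyticOnNhd ho).eqOn_zero_of_preconnected_of_eventuallyEq_zero hVc hzV hev
    obtain ⟨w, hw⟩ := hfr
    have hwK := hfrK hw
    have hwcl : w ∈ closure V := frontier_subset_closure hw
    have h4 := ((h.cont w hwK.1).mono hVL).mem_closure_image hwcl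
    have h5 : f '' V ⊆ {((0 : ℂ) : OnePoint ℂ)} := by
      rintro _ ⟨x, hx, rfl⟩
      rw [mem_singleton_iff, ← coe_fin (hfin x hx)]
      congr 1
      exact h3 hx
    have h6 := closure_minimal h5 isClosed_singleton h4
    rw [mem_singleton_iff] at h6
    rcases hwK.2 with h7 | h7
    · rw [h6] at h7
      exact OnePoint.coe_ne_infty _ h7
    · rw [h6, fin_coe, norm_zero] at h7
      linarith

/-- `f` has only finitely many zeros in the hull of the set where `|f|` is large. -/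
theorem Hyp.finite_zeros (h : Hyp L f) {c : ℝ} (hc : 0 < c) :
    {z : ℂ | z ∈ hull (Bg L f c) ∧ f z = ((0 : ℂ) : OnePoint ℂ)}.Finite := by
  have hK := h.isCompact_Bg c
  have hKL : Bg L f c ⊆ L := fun z hz => hz.1
  have hHL : hull (Bg L f c) ⊆ L := hull_subset h.comp h.conn hKL
  by_contra hinf
  obtain ⟨a, ha, hacc⟩ := Set.Infinite.exists_accPt_of_subset_isCompact (s := {z : ℂ | z ∈ hull (Bg L f c) ∧ f z = ((0 : ℂ) : OnePoint ℂ)}) hinf (isCompact_hull hK)
    (fun z hz => hz.1)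
  have hfa : f a = ((0 : ℂ) : OnePoint ℂ) := by
    have hcl : a ∈ closure {z : ℂ | z ∈ hull (Bg L f c) ∧ f z = ((0 : ℂ) : OnePoint ℂ)} :=
      mem_closure_iff_clusterPt.2 hacc.clusterPt
    have h4 := ((h.cont a (hHL ha)).mono (fun z hz => hHL hz.1)).mem_closure_image hcl
    have h5 : f '' {z : ℂ | z ∈ hull (Bg L f c) ∧ f z = ((0 : ℂ) : OnePoint ℂ)} ⊆
        {((0 : ℂ) : OnePoint ℂ)} := by
      rintro _ ⟨x, hx, rfl⟩
      exact hx.2
    exact closure_minimal h5 isClosed_singleton h4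
  have haK : a ∉ Bg L f c := by
    rintro ⟨_, h1 | h1⟩
    · rw [hfa] at h1
      exact OnePoint.coe_ne_infty _ h1
    · rw [hfa, fin_coe, norm_zero] at h1
      linarith
  obtain ⟨h1, h2, h3, h4⟩ := h.hole_Bg hc ha haK
  rcases h1.eventually_eq_zero_or_eventually_ne_zero with h5 | h5
  · exact h4 h5
  · rw [accPt_iff_frequently_nhdsNE] at hacc
    obtain ⟨w, hw1, hw2⟩ := (hacc.and_eventually h5).exists
    apply hw2
    rw [hw1.2]
    rfl

end Pool.Agent.V1173.Chordal
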