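import Mathlib

/-!
# The chordal metric on the Riemann sphere `OnePoint ℂ`
-/

set_option autoImplicit false
set_option linter.all false

open Complex Filter Topology Set Metric OnePoint

namespace Pool.Agent.V1173.Chordal

/-- The chordal metric on `OnePoint ℂ`. -/
noncomputable def chi : OnePoint ℂ → OnePoint ℂ → ℝ
  | OnePoint.some a, OnePoint.some b => ‖a - b‖ / (√(1 + ‖a‖ ^ 2) * √(1 + ‖b‖ ^ 2))
  | OnePoint.some a, OnePoint.infty => 1 / √(1 + ‖a‖ ^ 2)
  | OnePoint.infty, OnePoint.some b => 1 / √(1 + ‖b‖ ^ 2)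
  | OnePoint.infty, OnePoint.infty => 0

theorem chi_coe (a b : ℂ) : chi (a : OnePoint ℂ) (b : OnePoint ℂ) =
    ‖a - b‖ / (√(1 + ‖a‖ ^ 2) * √(1 + ‖b‖ ^ 2)) := rfl

theorem chi_infty (a : ℂ) : chi (a : OnePoint ℂ) ∞ = 1 / √(1 + ‖a‖ ^ 2) := rfl

/-- The finite part (`0` at `∞`). -/
noncomputable def fin (x : OnePoint ℂ) : ℂ := OnePoint.elim x 0 id

@[simp] theorem fin_coe (a : ℂ) : fin (a : OnePoint ℂ) = a := rfl
@[simp] theorem fin_infty : fin ∞ = 0 := rfl

theorem coe_fin {x : OnePoint ℂ} (h : x ≠ ∞) : ((fin x : ℂ) : OnePoint ℂ) = x := by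
  induction x using OnePoint.rec with
  | infty => exact absurd rfl h
  | coe a => rfl

theorem sqrt_one_le (a : ℂ) : 1 ≤ √(1 + ‖a‖ ^ 2) := by
  rw [Real.one_le_sqrt]
  nlinarith [sq_nonneg ‖a‖]

theorem le_sqrt_one (a : ℂ) : ‖a‖ ≤ √(1 + ‖a‖ ^ 2) := by
  apply Real.le_sqrt_of_sq_le
  linarith

theorem sqrt_le_add (a : ℂ) : √(1 + ‖a‖ ^ 2) ≤ 1 + ‖a‖ := by
  rw [Real.sqrt_le_left (by positivity)]
  nlinarith [norm_nonneg a]

theorem chi_nonneg (x y : OnePoint ℂ) : 0 ≤ chi x y := by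
  induction x using OnePoint.rec with
  | infty =>
    induction y using OnePoint.rec with
    | infty => exact le_refl (0 : ℝ)
    | coe b => change 0 ≤ 1 / √(1 + ‖b‖ ^ 2); positivity
  | coe a =>
    induction y using OnePoint.rec with
    | infty => change 0 ≤ 1 / √(1 + ‖a‖ ^ 2); positivity
    | coe b => rw [chi_coe]; positivity

theorem chi_le_dist (a b : ℂ) : chi (a : OnePoint ℂ) (b : OnePoint ℂ) ≤ ‖a - b‖ := by
  rw [chi_coe]
  apply div_le_self (norm_nonneg _)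
  nlinarith [sqrt_one_le a, sqrt_one_le b]

/-- away from `0`, the chordal distance is at most the distance of the inverses -/
theorem chi_le_inv {a : ℂ} {y : OnePoint ℂ} (ha : a ≠ 0) (hy : y ≠ ((0 : ℂ) : OnePoint ℂ)) :
    chi (a : OnePoint ℂ) y ≤ ‖a⁻¹ - (fin y)⁻¹‖ := by
  have ha' := norm_pos_iff.2 ha
  induction y using OnePoint.rec with
  | infty =>
    rw [chi_infty, fin_infty, inv_zero, sub_zero, norm_inv, ← one_div]
    exact one_div_le_one_div_of_le ha' (le_sqrt_one a)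
  | coe b =>
    have hb : b ≠ 0 := fun h => hy (by rw [h])
    have hb' := norm_pos_iff.2 hb
    rw [chi_coe, fin_coe]
    have e : a⁻¹ - b⁻¹ = (b - a) / (a * b) := by
      field_simp
    rw [e, norm_div, norm_mul, norm_sub_rev]
    apply div_le_div_of_nonneg_left (norm_nonneg _) (by positivity)
    exact mul_le_mul (le_sqrt_one a) (le_sqrt_one b) (norm_nonneg _) (by positivity)

/-- near finite points the chordal metric controls the distance -/
theorem dist_le_chi {M : ℝ} {a b : ℂ} (hb : ‖b‖ ≤ M)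
    (h : chi (a : OnePoint ℂ) (b : OnePoint ℂ) ≤ 1 / (2 * (1 + M))) :
    ‖a - b‖ ≤ 2 * (1 + M) ^ 2 * chi (a : OnePoint ℂ) (b : OnePoint ℂ) := by
  have hM : 0 ≤ M := (norm_nonneg b).trans hb
  obtain ⟨c, hc⟩ : ∃ c, c = chi (a : OnePoint ℂ) (b : OnePoint ℂ) := ⟨_, rfl⟩
  have hc0 : 0 ≤ c := hc ▸ chi_nonneg _ _
  rw [← hc] at h ⊢
  rw [chi_coe] at hc
  have hA := sqrt_le_add a
  have hB := sqrt_le_add b
  have hA1 := sqrt_one_le a
  have hB1 := sqrt_one_le b
  obtain ⟨A, hAd⟩ : ∃ A, A = √(1 + ‖a‖ ^ 2) := ⟨_, rfl⟩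
  obtain ⟨B, hBd⟩ : ∃ B, B = √(1 + ‖b‖ ^ 2) := ⟨_, rfl⟩
  rw [← hAd] at hA hA1 hc
  rw [← hBd] at hB hB1 hc
  have hd : ‖a - b‖ = c * (A * B) := by
    rw [hc]
    field_simp
  have h1 : ‖a‖ ≤ ‖b‖ + ‖a - b‖ := by
    have : a = b + (a - b) := by ring
    calc ‖a‖ = ‖b + (a - b)‖ := by rw [← this]
      _ ≤ _ := norm_add_le _ _
  have h2 : c * (1 + M) ≤ 1 / 2 := by
    have : 1 / (2 * (1 + M)) * (1 + M) = 1 / 2 := by field_simp
    rw [← this]
    exact mul_le_mul_of_nonneg_right h (by linarith)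
  have hBM : B ≤ 1 + M := by linarith
  have h3 : A ≤ 1 + M + A * (1 / 2) := by
    have : c * (A * B) ≤ A * (1 / 2) := by
      calc c * (A * B) = A * (c * B) := by ring
        _ ≤ A * (1 / 2) := by
          apply mul_le_mul_of_nonneg_left _ (by linarith)
          calc c * B ≤ c * (1 + M) := mul_le_mul_of_nonneg_left hBM hc0
            _ ≤ 1 / 2 := h2
    linarith
  have h4 : A ≤ 2 * (1 + M) := by linarith
  rw [hd]
  calc c * (A * B) ≤ c * (2 * (1 + M) * (1 + M)) := by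
        apply mul_le_mul_of_nonneg_left _ hc0
        exact mul_le_mul h4 hBM (by linarith) (by linarith)
    _ = _ := by ring

/-- the chordal metric is invariant under inversion -/
theorem chi_inv {a b : ℂ} (ha : a ≠ 0) (hb : b ≠ 0) :
    chi (a : OnePoint ℂ) (b : OnePoint ℂ) = chi ((a⁻¹ : ℂ) : OnePoint ℂ) ((b⁻¹ : ℂ) : OnePoint ℂ) := by
  have ha' := norm_pos_iff.2 ha
  have hb' := norm_pos_iff.2 hb
  have key : ∀ c : ℂ, c ≠ 0 → √(1 + ‖c⁻¹‖ ^ 2) = √(1 + ‖c‖ ^ 2) / ‖c‖ := by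
    intro c hc
    have hc' := norm_pos_iff.2 hc
    rw [norm_inv, Real.sqrt_eq_iff_mul_self_eq (by positivity) (by positivity)]
    rw [div_mul_div_comm, Real.mul_self_sqrt (by positivity)]
    field_simp
    ring
  rw [chi_coe, chi_coe, key a ha, key b hb]
  have e : a⁻¹ - b⁻¹ = (b - a) / (a * b) := by
    field_simp
  rw [e, norm_div, norm_mul, norm_sub_rev b a]
  have h1 := sqrt_one_le a
  have h2 := sqrt_one_le b
  field_simp

theorem chi_inv_infty {a : ℂ} (ha : a ≠ 0) :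
    chi (a : OnePoint ℂ) ∞ = chi ((a⁻¹ : ℂ) : OnePoint ℂ) ((0 : ℂ) : OnePoint ℂ) := by
  have ha' := norm_pos_iff.2 ha
  have key : ∀ c : ℂ, c ≠ 0 → √(1 + ‖c⁻¹‖ ^ 2) = √(1 + ‖c‖ ^ 2) / ‖c‖ := by
    intro c hc
    have hc' := norm_pos_iff.2 hc
    rw [norm_inv, Real.sqrt_eq_iff_mul_self_eq (by positivity) (by positivity)]
    rw [div_mul_div_comm, Real.mul_self_sqrt (by positivity)]
    field_simp
    ring
  rw [chi_infty, chi_coe, key a ha]
  simp only [sub_zero, norm_inv, norm_zero]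
  have h1 := sqrt_one_le a
  rw [show (1 : ℝ) + 0 ^ 2 = 1 by norm_num, Real.sqrt_one]
  field_simp

/-- near `∞`, the chordal distance controls the distance of the inverses -/
theorem inv_le_chi {a : ℂ} {y : OnePoint ℂ} (hy : y = ∞ ∨ 2 ≤ ‖fin y‖)
    (h : chi (a : OnePoint ℂ) y ≤ 1 / 4) :
    a ≠ 0 ∧ ‖a⁻¹ - (fin y)⁻¹‖ ≤ 8 * chi (a : OnePoint ℂ) y := by
  induction y using OnePoint.rec with
  | infty =>
    have ha : a ≠ 0 := by
      intro h0
      rw [h0, chi_infty, norm_zero] at h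
      norm_num at h
    refine ⟨ha, ?_⟩
    rw [chi_inv_infty ha] at h ⊢
    have h1 := dist_le_chi (M := 1) (a := a⁻¹) (b := 0) (by simp) (by norm_num at h ⊢; exact h)
    rw [fin_infty, inv_zero]
    norm_num at h1 ⊢
    linarith
  | coe b =>
    have hb : 2 ≤ ‖b‖ := by
      rcases hy with hy | hy
      · exact absurd hy (OnePoint.coe_ne_infty b)
      · exact hy
    have hb0 : b ≠ 0 := by
      intro h0
      rw [h0, norm_zero] at hb
      norm_num at hb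
    have ha : a ≠ 0 := by
      intro h0
      rw [h0, chi_coe, zero_sub, norm_neg, norm_zero] at h
      rw [show (1 : ℝ) + 0 ^ 2 = 1 by norm_num, Real.sqrt_one, one_mul,
        div_le_iff₀ (by positivity)] at h
      have := sqrt_le_add b
      linarith
    refine ⟨ha, ?_⟩
    rw [chi_inv ha hb0] at h ⊢
    have h1 := dist_le_chi (M := 1) (a := a⁻¹) (b := b⁻¹) (by
      rw [norm_inv]
      apply inv_le_one_of_one_le₀
      linarith) (by norm_num at h ⊢; exact h)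
    rw [fin_coe]
    norm_num at h1 ⊢
    linarith

/-! ### topology -/

theorem continuousAt_fin {x : OnePoint ℂ} (hx : x ≠ ∞) : ContinuousAt fin x := by
  rw [← coe_fin hx, ← OnePoint.isOpenEmbedding_coe.continuousAt_iff]
  exact continuousAt_id

theorem continuousAt_inv_fin {x : OnePoint ℂ} (hx : x ≠ ((0 : ℂ) : OnePoint ℂ)) :
    ContinuousAt (fun y => (fin y)⁻¹) x := by
  induction x using OnePoint.rec with
  | infty =>
    rw [OnePoint.continuousAt_infty']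
    have h1 : ((fun y => (fin y)⁻¹) ∘ ((↑) : ℂ → OnePoint ℂ)) = fun z : ℂ => z⁻¹ := rfl
    rw [h1]
    simp only [fin_infty, inv_zero]
    rw [Filter.coclosedCompact_eq_cocompact, ← Metric.cobounded_eq_cocompact]
    exact Filter.tendsto_inv₀_cobounded
  | coe a =>
    have ha : a ≠ 0 := fun h => hx (by rw [h])
    exact (continuousAt_fin (OnePoint.coe_ne_infty a)).inv₀ ha

theorem isClosed_small (c : ℝ) : IsClosed {x : OnePoint ℂ | x ≠ ∞ ∧ ‖fin x‖ ≤ c} := by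
  have h : {x : OnePoint ℂ | x ≠ ∞ ∧ ‖fin x‖ ≤ c} = ((↑) : ℂ → OnePoint ℂ) '' closedBall 0 c := by
    ext x
    constructor
    · rintro ⟨h1, h2⟩
      exact ⟨fin x, mem_closedBall_zero_iff.2 h2, coe_fin h1⟩
    · rintro ⟨a, ha, rfl⟩
      exact ⟨OnePoint.coe_ne_infty a, mem_closedBall_zero_iff.1 ha⟩
  rw [h]
  exact ((isCompact_closedBall (0 : ℂ) c).image OnePoint.continuous_coe).isClosed

theorem isOpen_small (c : ℝ) : IsOpen {x : OnePoint ℂ | x ≠ ∞ ∧ ‖fin x‖ < c} := by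
  have h : {x : OnePoint ℂ | x ≠ ∞ ∧ ‖fin x‖ < c} = ((↑) : ℂ → OnePoint ℂ) '' ball 0 c := by
    ext x
    constructor
    · rintro ⟨h1, h2⟩
      exact ⟨fin x, mem_ball_zero_iff.2 h2, coe_fin h1⟩
    · rintro ⟨a, ha, rfl⟩
      exact ⟨OnePoint.coe_ne_infty a, mem_ball_zero_iff.1 ha⟩
  rw [h]
  exact OnePoint.isOpenEmbedding_coe.isOpenMap _ isOpen_ball

theorem isClosed_big (c : ℝ) : IsClosed {x : OnePoint ℂ | x = ∞ ∨ c ≤ ‖fin x‖} := by
  have h : {x : OnePoint ℂ | x = ∞ ∨ c ≤ ‖fin x‖} = {x : OnePoint ℂ | x ≠ ∞ ∧ ‖fin x‖ < c}ᶜ := by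
    ext x
    simp only [mem_ofPred_eq, mem_compl_iff, not_and, not_lt, ne_eq]
    tauto
  rw [h]
  exact (isOpen_small c).isClosed_compl

theorem isOpen_big (c : ℝ) : IsOpen {x : OnePoint ℂ | x = ∞ ∨ c < ‖fin x‖} := by
  have h : {x : OnePoint ℂ | x = ∞ ∨ c < ‖fin x‖} = {x : OnePoint ℂ | x ≠ ∞ ∧ ‖fin x‖ ≤ c}ᶜ := by
    ext x
    simp only [mem_ofPred_eq, mem_compl_iff, not_and, not_le, ne_eq]
    tauto
  rw [h]
  exact (isClosed_small c).isOpen_compl

end Pool.Agent.V1173.Chordal
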